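import Mathlib

/-!
# Algebras with two unary operations, one of which is absorbing

`op false` is the successor like operation `s`, `op true` is the operation `t`,
with the laws `s (t x) = t x` and `t (t x) = t x`.
-/

namespace Pool.Agent.Work.MP_f76ce6_lc

/-- The laws `s (t x) = t x` and `t (t x) = t x`. -/
def Lawful {A : Type*} (op : Bool → A → A) : Prop := ∀ b a, op b (op true a) = op true a

/-- The action of words on an algebra. -/
def act {A : Type*} (op : Bool → A → A) (w : List Bool) (a : A) : A := w.foldr op a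

section

variable {A : Type*} {op : Bool → A → A}

@[simp] theorem act_nil (a : A) : act op [] a = a := rfl

@[simp] theorem act_cons (b : Bool) (w : List Bool) (a : A) :
    act op (b :: w) a = op b (act op w a) := rfl

theorem act_append (w w' : List Bool) (a : A) :
    act op (w ++ w') a = act op w (act op w' a) := by
  simp [act]

theorem act_of_fixed {a : A} (h : ∀ b, op b a = a) (w : List Bool) : act op w a = a := by
  induction w with
  | nil => rfl
  | cons b w ih => rw [act_cons, ih, h]

theorem op_act_of_mem (hl : Lawful op) {w : List Bool} (hw : true ∈ w) (a : A) (b : Bool) :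
    op b (act op w a) = act op w a := by
  induction w generalizing b with
  | nil => simp at hw
  | cons c w ih =>
    by_cases hc : c = true
    · subst hc
      exact hl b _
    · have hw' : true ∈ w := by
        rcases List.mem_cons.1 hw with h | h
        · exact absurd h.symm hc
        · exact h
      rw [act_cons, ih hw', ih hw']

theorem act_act_of_mem (hl : Lawful op) {w : List Bool} (hw : true ∈ w) (a : A)
    (w' : List Bool) : act op w' (act op w a) = act op w a :=
  act_of_fixed (op_act_of_mem hl hw a) w'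

theorem eq_replicate_of_not_mem {w : List Bool} (hw : true ∉ w) :
    w = List.replicate w.length false := by
  rw [List.eq_replicate_iff]
  refine ⟨rfl, fun b hb => ?_⟩
  cases b with
  | false => rfl
  | true => exact absurd hb hw

/-- `a` is obtained from `b` by applying operations. -/
def Reach (op : Bool → A → A) (a b : A) : Prop := ∃ w, a = act op w b

theorem Reach.refl (a : A) : Reach op a a := ⟨[], rfl⟩

theorem Reach.trans {a b c : A} (h1 : Reach op a b) (h2 : Reach op b c) : Reach op a c := by
  obtain ⟨w, rfl⟩ := h1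
  obtain ⟨w', rfl⟩ := h2
  exact ⟨w ++ w', (act_append _ _ _).symm⟩

theorem act_replicate_add (i j : ℕ) (a : A) :
    act op (List.replicate (i + j) false) a =
      act op (List.replicate i false) (act op (List.replicate j false) a) := by
  rw [List.replicate_add, act_append]

theorem act_replicate_mul {p : ℕ} {a : A} (h : act op (List.replicate p false) a = a) (k : ℕ) :
    act op (List.replicate (k * p) false) a = a := by
  induction k with
  | zero => simp
  | succ k ih => rw [Nat.succ_mul, act_replicate_add, h, ih]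

theorem act_replicate_mod {p : ℕ} {a : A} (h : act op (List.replicate p false) a = a) (i : ℕ) :
    act op (List.replicate i false) a = act op (List.replicate (i % p) false) a := by
  conv_lhs => rw [← Nat.mod_add_div' i p]
  rw [act_replicate_add, act_replicate_mul h]

/-- Strongly connected components are finite. -/
theorem finite_scc (hl : Lawful op) (x : A) : {y | Reach op y x ∧ Reach op x y}.Finite := by
  by_cases hp : ∃ p, 0 < p ∧ act op (List.replicate p false) x = x
  · obtain ⟨p, hp0, hp⟩ := hp
    refine Set.Finite.subset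
      ((Set.finite_lt_nat p).image fun i => act op (List.replicate i false) x) ?_
    rintro y ⟨⟨w, rfl⟩, ⟨w', hw'⟩⟩
    by_cases hw : true ∈ w
    · rw [act_act_of_mem hl hw] at hw'
      exact ⟨0, hp0, by simpa using hw'⟩
    · rw [eq_replicate_of_not_mem hw]
      exact ⟨w.length % p, Nat.mod_lt _ hp0, (act_replicate_mod hp _).symm⟩
  · refine Set.Finite.subset (Set.finite_singleton x) ?_
    rintro y ⟨⟨w, rfl⟩, ⟨w', hw'⟩⟩
    by_cases hw : true ∈ w
    · rw [act_act_of_mem hl hw] at hw'
      exact hw'.symm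
    · by_cases hw2 : true ∈ w'
      · have h1 : act op w x = x := by
          rw [hw', act_act_of_mem hl hw2]
        exact h1
      · rw [eq_replicate_of_not_mem hw, eq_replicate_of_not_mem hw2, ← act_replicate_add] at hw'
        have h0 : w'.length + w.length = 0 := by
          by_contra hne
          exact hp ⟨_, Nat.pos_of_ne_zero hne, hw'.symm⟩
        have h1 : w = [] := List.length_eq_zero_iff.1 (by omega)
        subst h1
        rfl

/-- A tuple generates the algebra. -/
def Gen (op : Bool → A → A) {m : ℕ} (τ : Fin m → A) : Prop := ∀ a, ∃ j, Reach op a (τ j)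

theorem Gen.antichain {r : ℕ} (hmin : ∀ r' < r, ¬ ∃ τ : Fin (r' + 1) → A, Gen op τ)
    {τ : Fin (r + 1) → A} (hτ : Gen op τ) {k l : Fin (r + 1)} (h : Reach op (τ k) (τ l)) :
    k = l := by
  by_contra hkl
  cases r with
  | zero => exact hkl (Fin.ext (by omega))
  | succ r =>
    apply hmin r (Nat.lt_succ_self r)
    refine ⟨fun j => τ (k.succAbove j), fun a => ?_⟩
    obtain ⟨j, hj⟩ := hτ a
    by_cases hjk : j = k
    · subst hjk
      obtain ⟨l', hl'⟩ := Fin.exists_succAbove_eq (x := l) (y := j) (Ne.symm hkl)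
      refine ⟨l', ?_⟩
      beta_reduce
      rw [hl']
      exact hj.trans h
    · obtain ⟨j', hj'⟩ := Fin.exists_succAbove_eq (x := j) (y := k) hjk
      refine ⟨j', ?_⟩
      beta_reduce
      rw [hj']
      exact hj

theorem finite_gen (hl : Lawful op) {r : ℕ}
    (hmin : ∀ r' < r, ¬ ∃ τ : Fin (r' + 1) → A, Gen op τ) :
    {τ : Fin (r + 1) → A | Gen op τ}.Finite := by
  rcases Set.eq_empty_or_nonempty {τ : Fin (r + 1) → A | Gen op τ} with h | ⟨x, hx⟩
  · rw [h]; exact Set.finite_empty
  · have hfin : (⋃ k : Fin (r + 1), {y | Reach op y (x k) ∧ Reach op (x k) y}).Finite :=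
      Set.finite_iUnion fun k => finite_scc hl (x k)
    refine Set.Finite.subset (Set.Finite.pi' fun _ : Fin (r + 1) => hfin) ?_
    intro τ hτ j
    obtain ⟨k, hk⟩ := hx (τ j)
    obtain ⟨j', hj'⟩ := hτ (x k)
    have : j = j' := Gen.antichain hmin hτ (hk.trans hj')
    subst this
    exact Set.mem_iUnion.2 ⟨k, hk, hj'⟩

/-- A word together with the index of a generator. -/
abbrev Wd := List Bool × ℕ

/-- The system `F` of equations has a solution by a generating tuple of length `r + 1`. -/
def Sat (op : Bool → A → A) (r : ℕ) (F : List (Wd × Wd)) : Prop :=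
  ∃ τ : Fin (r + 1) → A, Gen op τ ∧
    ∀ p ∈ F, act op p.1.1 (τ (Fin.ofNat (r + 1) p.1.2)) = act op p.2.1 (τ (Fin.ofNat (r + 1) p.2.2))

end

/-- The equations satisfied by a tuple. -/
def Rel {A : Type*} (op : Bool → A → A) {m : ℕ} (τ : Fin m → A) :
    Set ((List Bool × Fin m) × (List Bool × Fin m)) :=
  {p | act op p.1.1 (τ p.1.2) = act op p.2.1 (τ p.2.2)}

theorem exists_equiv_of_rel_eq {A B : Type*} {op : Bool → A → A} {op' : Bool → B → B} {m : ℕ}
    {τ : Fin m → A} {τ' : Fin m → B} (hτ : Gen op τ) (hτ' : Gen op' τ')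
    (h : Rel op τ = Rel op' τ') : ∃ φ : A ≃ B, ∀ b a, φ (op b a) = op' b (φ a) := by
  choose j hj using hτ
  choose w hw using hj
  let f : A → B := fun a => act op' (w a) (τ' (j a))
  have key : ∀ (v : List Bool) (k : Fin m), f (act op v (τ k)) = act op' v (τ' k) := by
    intro v k
    have h1 : ((w (act op v (τ k)), j (act op v (τ k))), (v, k)) ∈ Rel op τ := by
      change act op _ _ = act op _ _
      exact (hw _).symm
    rw [h] at h1
    exact h1
  have hsurj : Function.Surjective f := by
    intro b
    obtain ⟨k, v, rfl⟩ := hτ' b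
    exact ⟨_, key v k⟩
  have hinj : Function.Injective f := by
    intro a a' haa
    have h1 : ((w a, j a), (w a', j a')) ∈ Rel op' τ' := haa
    rw [← h] at h1
    have h2 : act op (w a) (τ (j a)) = act op (w a') (τ (j a')) := h1
    rw [hw a, hw a']
    exact h2
  refine ⟨Equiv.ofBijective f ⟨hinj, hsurj⟩, fun b a => ?_⟩
  change f (op b a) = op' b (f a)
  have h1 : op b a = act op (b :: w a) (τ (j a)) := by rw [act_cons, ← hw a]
  rw [h1, key]
  rfl

theorem exists_rel_subset {A B : Type*} {op : Bool → A → A} {op' : Bool → B → B}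
    (hl' : Lawful op') {r : ℕ}
    (hmin' : ∀ r' < r, ¬ ∃ τ : Fin (r' + 1) → B, Gen op' τ)
    (hsat : ∀ F, Sat op r F → Sat op' r F) {τ : Fin (r + 1) → A} (hτ : Gen op τ) :
    ∃ τ' : Fin (r + 1) → B, Gen op' τ' ∧ Rel op τ ⊆ Rel op' τ' := by
  classical
  by_contra hcon
  push Not at hcon
  have hfin := finite_gen hl' hmin'
  have h1 : ∀ τ' : Fin (r + 1) → B, ∃ p : Wd × Wd, Gen op' τ' →
      (act op p.1.1 (τ (Fin.ofNat (r + 1) p.1.2)) = act op p.2.1 (τ (Fin.ofNat (r + 1) p.2.2)) ∧
      act op' p.1.1 (τ' (Fin.ofNat (r + 1) p.1.2)) ≠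
        act op' p.2.1 (τ' (Fin.ofNat (r + 1) p.2.2))) := by
    intro τ'
    by_cases hg : Gen op' τ'
    · obtain ⟨p, hp, hp'⟩ := Set.not_subset.1 (hcon τ' hg)
      refine ⟨((p.1.1, (p.1.2 : ℕ)), (p.2.1, (p.2.2 : ℕ))), fun _ => ⟨?_, ?_⟩⟩
      · simpa [Rel] using hp
      · simpa [Rel] using hp'
    · exact ⟨(([], 0), ([], 0)), fun h => absurd h hg⟩
  choose p hp using h1
  let F : List (Wd × Wd) := (hfin.toFinset.image p).toList
  have hF : Sat op r F := by
    refine ⟨τ, hτ, fun q hq => ?_⟩
    simp only [F, Finset.mem_toList, Finset.mem_image, Set.Finite.mem_toFinset] at hq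
    obtain ⟨τ', hτ', rfl⟩ := hq
    exact (hp τ' hτ').1
  obtain ⟨τ', hτ', hall⟩ := hsat F hF
  refine (hp τ' hτ').2 (hall _ ?_)
  simp only [F, Finset.mem_toList, Finset.mem_image, Set.Finite.mem_toFinset]
  exact ⟨τ', hτ', rfl⟩

/-- Main combinatorial theorem: a finitely generated lawful algebra is determined up to
isomorphism by the finite systems of equations that are solvable by generating tuples. -/
theorem exists_equiv_of_sat {A B : Type*} {op : Bool → A → A} {op' : Bool → B → B}
    (hl : Lawful op) (hl' : Lawful op') (hfg : ∃ r, ∃ τ : Fin (r + 1) → A, Gen op τ)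
    (hsat : ∀ r F, Sat op r F ↔ Sat op' r F) :
    ∃ φ : A ≃ B, ∀ b a, φ (op b a) = op' b (φ a) := by
  classical
  let r := Nat.find hfg
  have hmin : ∀ r' < r, ¬ ∃ τ : Fin (r' + 1) → A, Gen op τ := fun r' hr' => Nat.find_min hfg hr'
  have hmin' : ∀ r' < r, ¬ ∃ τ : Fin (r' + 1) → B, Gen op' τ := by
    rintro r' hr' ⟨τ, hτ⟩
    obtain ⟨τ', hτ', _⟩ := (hsat r' []).2 ⟨τ, hτ, by simp⟩
    exact hmin r' hr' ⟨τ', hτ'⟩
  have hfin := finite_gen hl hmin
  have hne : {τ : Fin (r + 1) → A | Gen op τ}.Nonempty := Nat.find_spec hfg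
  obtain ⟨τ, hτ⟩ := hfin.exists_maximalFor (fun τ : Fin (r + 1) → A => Rel op τ) _ hne
  obtain ⟨τ', hτ', h1⟩ := exists_rel_subset hl' hmin' (fun F => (hsat r F).1) hτ.1
  obtain ⟨τ'', hτ'', h2⟩ := exists_rel_subset hl hmin (fun F => (hsat r F).2) hτ'
  have h3 : Rel op τ'' ⊆ Rel op τ := hτ.2 hτ'' (h1.trans h2)
  exact exists_equiv_of_rel_eq hτ.1 hτ' (Set.Subset.antisymm h1 (h2.trans h3))

end Pool.Agent.Work.MP_f76ce6_lc
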