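import Mathlib

/-!
# Definitions: varieties, computably enumerable presentations, computable reducibility

Everything here follows the conventions of the problem MP_f76ce6_lc.
-/

namespace Pool.Agent.Work.MP_f76ce6_lc

open Nat.Partrec (Code)

/-- The `e`-th computably enumerable set `W e`: the domain of the `e`-th partial computable
function. -/
def W (e : ℕ) : Set ℕ := {x | (Code.eval (Denumerable.ofNat Code e) x).Dom}

/-- A signature: function symbols are indexed by a decidable set of natural numbers, with a
computable arity function. -/
structure Signature where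
  /-- the set of (indices of) function symbols -/
  symb : Set ℕ
  /-- the arity of a function symbol -/
  arity : ℕ → ℕ
  symb_decidable : ComputablePred fun f : ℕ => f ∈ symb
  arity_computable : Computable arity

/-- Terms of a signature `S` in variables (or generators) from `X`. -/
inductive Term (S : Signature) (X : Type) : Type
  | var (x : X) : Term S X
  | app (f : ℕ) (hf : f ∈ S.symb) (args : Fin (S.arity f) → Term S X) : Term S X

/-- The operations of an `S`-algebra with carrier `A`. -/
abbrev Ops (S : Signature) (A : Type) : Type :=
  (f : ℕ) → f ∈ S.symb → (Fin (S.arity f) → A) → A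

/-- The value of a term under a valuation of the variables. -/
def Term.eval {S : Signature} {X A : Type} (I : Ops S A) (v : X → A) : Term S X → A
  | .var x => v x
  | .app f hf args => I f hf fun i => (args i).eval I v

/-- Substitution of terms for variables. -/
def Term.subst {S : Signature} {X Y : Type} (σ : X → Term S Y) : Term S X → Term S Y
  | .var x => σ x
  | .app f hf args => .app f hf fun i => (args i).subst σ

/-- A set of equational laws (in variables indexed by natural numbers). It defines a variety,
the class of all `S`-algebras satisfying all the laws. -/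
abbrev Laws (S : Signature) : Type := Set (Term S ℕ × Term S ℕ)

/-- The algebra `(A, I)` belongs to the variety defined by `V`. -/
def Laws.Holds {S : Signature} (V : Laws S) {A : Type} (I : Ops S A) : Prop :=
  ∀ l ∈ V, ∀ v : ℕ → A, l.1.eval I v = l.2.eval I v

/-- The variety defined by `V` is nontrivial: it contains an algebra with at least two
elements. -/
def Laws.Nontrivial {S : Signature} (V : Laws S) : Prop :=
  ∃ (A : Type) (I : Ops S A), V.Holds I ∧ ∃ a b : A, a ≠ b

/-- The Goedel number of a term in the generators `x_0, …, x_{n-1}`. -/
def Term.code {S : Signature} {n : ℕ} : Term S (Fin n) → ℕ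
  | .var i => 2 * (i : ℕ)
  | .app f _ args => 2 * Nat.pair f (Encodable.encode (List.ofFn fun i => (args i).code)) + 1

/-- A computable numbering of all equations between terms in the generators
`x_0, …, x_{n-1}`: from a number one can compute the Goedel numbers of both sides of the
equation that it numbers, and every equation has a number. -/
structure Numbering (S : Signature) (n : ℕ) where
  /-- the equation with a given number -/
  eqn : ℕ → Term S (Fin n) × Term S (Fin n)
  surjective : Function.Surjective eqn
  computable : Computable fun m => ((eqn m).1.code, (eqn m).2.code)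

/-- The equations whose numbers lie in the set `U`. -/
def Numbering.eqns {S : Signature} {n : ℕ} (ν : Numbering S n) (U : Set ℕ) :
    Set (Term S (Fin n) × Term S (Fin n)) := {p | ∃ m ∈ U, ν.eqn m = p}

/-- The congruence on the term algebra over the generators `X` which is generated by (all
substitution instances of) the laws `V` together with the equations `E` between generators. -/
inductive Cong {S : Signature} {X : Type} (V : Laws S) (E : Set (Term S X × Term S X)) :
    Term S X → Term S X → Prop
  | refl (t) : Cong V E t t
  | symm {s t} : Cong V E s t → Cong V E t s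
  | trans {s t u} : Cong V E s t → Cong V E t u → Cong V E s u
  | app (f : ℕ) (hf : f ∈ S.symb) {a b : Fin (S.arity f) → Term S X} :
      (∀ i, Cong V E (a i) (b i)) → Cong V E (.app f hf a) (.app f hf b)
  | law {l} (hl : l ∈ V) (σ : ℕ → Term S X) : Cong V E (l.1.subst σ) (l.2.subst σ)
  | rel {p} (hp : p ∈ E) : Cong V E p.1 p.2

/-- The congruence as a setoid. -/
def congSetoid {S : Signature} {X : Type} (V : Laws S) (E : Set (Term S X × Term S X)) :
    Setoid (Term S X) :=
  ⟨Cong V E, ⟨Cong.refl, Cong.symm, Cong.trans⟩⟩

/-- The carrier of the algebra presented by generators `X` and relations `E` in the variety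
defined by `V`: the free algebra of the variety on `X`, modulo the congruence generated by
`E`. -/
def Presented {S : Signature} {X : Type} (V : Laws S) (E : Set (Term S X × Term S X)) : Type :=
  Quotient (congSetoid V E)

/-- The element of the presented algebra named by a term. -/
def Presented.mk {S : Signature} {X : Type} (V : Laws S) (E : Set (Term S X × Term S X))
    (t : Term S X) : Presented V E := Quotient.mk (congSetoid V E) t

/-- Some term naming a given element of the presented algebra. -/
noncomputable def Presented.rep {S : Signature} {X : Type} {V : Laws S}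
    {E : Set (Term S X × Term S X)} (a : Presented V E) : Term S X :=
  Quotient.out (s := congSetoid V E) a

/-- The operations of the presented algebra: apply the function symbol to representatives. -/
noncomputable def Presented.ops {S : Signature} {X : Type} (V : Laws S)
    (E : Set (Term S X × Term S X)) : Ops S (Presented V E) :=
  fun f hf args => Presented.mk V E (.app f hf fun i => (args i).rep)

/-- Isomorphism of `S`-algebras. -/
def Isomorphic {S : Signature} {A B : Type} (I : Ops S A) (J : Ops S B) : Prop :=
  ∃ φ : A ≃ B, ∀ (f : ℕ) (hf : f ∈ S.symb) (args : Fin (S.arity f) → A),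
    φ (I f hf args) = J f hf fun i => φ (args i)

/-- The isomorphism relation `I_{V_n}` on `ℕ`: the `n`-generated algebras `V_n[W_e]` and
`V_n[W_{e'}]` are isomorphic. Here the equations are numbered by `ν`. -/
def isoRel {S : Signature} (V : Laws S) {n : ℕ} (ν : Numbering S n) (e e' : ℕ) : Prop :=
  Isomorphic (Presented.ops V (ν.eqns (W e))) (Presented.ops V (ν.eqns (W e')))

/-- Computable reducibility `E ≤_c F`. -/
def CRed (E F : ℕ → ℕ → Prop) : Prop :=
  ∃ f : ℕ → ℕ, Computable f ∧ ∀ x y, E x y ↔ F (f x) (f y)

/-- `E ≡_c F`. -/
def CEquiv (E F : ℕ → ℕ → Prop) : Prop := CRed E F ∧ CRed F E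

/-- `E <_c F`. -/
def CLt (E F : ℕ → ℕ → Prop) : Prop := CRed E F ∧ ¬ CRed F E

/-- The relation `E` is `Σ⁰₃`. -/
def IsSigma3 (E : ℕ → ℕ → Prop) : Prop :=
  ∃ R : ℕ × ℕ × ℕ × ℕ × ℕ → Prop, ComputablePred R ∧
    ∀ x y, E x y ↔ ∃ a, ∀ b, ∃ c, R (x, y, a, b, c)

/-- `E` is a `Σ⁰₃`-complete equivalence relation: it is a `Σ⁰₃` equivalence relation and every
`Σ⁰₃` equivalence relation on `ℕ` is computably reducible to it. -/
def Sigma3Complete (E : ℕ → ℕ → Prop) : Prop :=
  Equivalence E ∧ IsSigma3 E ∧ ∀ F : ℕ → ℕ → Prop, Equivalence F → IsSigma3 F → CRed F E

/-- The relation `=^ce`: equality of c.e. sets. -/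
def eqCE (e e' : ℕ) : Prop := W e = W e'

end Pool.Agent.Work.MP_f76ce6_lc
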