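import Pool.Agent.Work.MP_f76ce6_lc.Lower

/-!
# Arithmetical complexity: `=^ce` is `Σ⁰₃` but not `Σ⁰₃`-complete
-/

namespace Pool.Agent.Work.MP_f76ce6_lc

open Nat.Partrec (Code)

/-- `z` is enumerated into `W e` by stage `k`. -/
def inW (k e z : ℕ) : Prop := (Code.evaln k (Denumerable.ofNat Code e) z).isSome = true

theorem mem_W_iff {e z : ℕ} : z ∈ W e ↔ ∃ k, inW k e z := by
  simp only [W, inW, Set.mem_ofPred_eq, Part.dom_iff_mem, Code.evaln_complete,
    Option.isSome_iff_exists, Option.mem_def]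
  exact exists_comm

theorem inW_primrec : PrimrecPred fun x : ℕ × ℕ × ℕ => inW x.1 x.2.1 x.2.2 := by
  unfold inW
  refine Primrec.eq.comp ?_ (Primrec.const true)
  refine Primrec.option_isSome.comp ?_
  exact Code.primrec_evaln.comp
    ((Primrec.fst.pair ((Primrec.ofNat Code).comp (Primrec.fst.comp Primrec.snd))).pair
      (Primrec.snd.comp Primrec.snd))

theorem inW_comp {α : Type} [Primcodable α] {f g h : α → ℕ} (hf : Primrec f) (hg : Primrec g)
    (hh : Primrec h) : PrimrecPred fun a => inW (f a) (g a) (h a) :=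
  inW_primrec.comp (f := fun a => (f a, g a, h a)) (hf.pair (hg.pair hh))

theorem CRed.trans {E F G : ℕ → ℕ → Prop} (h1 : CRed E F) (h2 : CRed F G) : CRed E G := by
  obtain ⟨f, hf, hf'⟩ := h1
  obtain ⟨g, hg, hg'⟩ := h2
  exact ⟨fun x => g (f x), hg.comp hf, fun x y => (hf' x y).trans (hg' _ _)⟩

theorem eqCE_equivalence : Equivalence eqCE :=
  ⟨fun _ => rfl, fun h => Eq.symm h, fun h1 h2 => Eq.trans h1 h2⟩

theorem equivalence_of_CRed {E : ℕ → ℕ → Prop} (h : CRed E eqCE) : Equivalence E := by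
  obtain ⟨f, _, hf'⟩ := h
  exact ⟨fun x => (hf' x x).2 rfl, fun {x y} h => (hf' y x).2 (Eq.symm ((hf' x y).1 h)),
    fun {x y z} h1 h2 => (hf' x z).2 (Eq.trans ((hf' x y).1 h1) ((hf' y z).1 h2))⟩

theorem isSigma3_of_CRed {E : ℕ → ℕ → Prop} (h : CRed E eqCE) : IsSigma3 E := by
  obtain ⟨f, hf, hf'⟩ := h
  let Q : ℕ × ℕ × ℕ × ℕ → Prop := fun x =>
    (¬ inW x.2.2.1.unpair.2 x.1 x.2.2.1.unpair.1 ∨ inW x.2.2.2.unpair.1 x.2.1 x.2.2.1.unpair.1) ∧
    (¬ inW x.2.2.1.unpair.2 x.2.1 x.2.2.1.unpair.1 ∨ inW x.2.2.2.unpair.2 x.1 x.2.2.1.unpair.1)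
  have hQ : PrimrecPred Q := by
    have e1 : Primrec fun x : ℕ × ℕ × ℕ × ℕ => x.2.2.1.unpair.1 :=
      Primrec.fst.comp (Primrec.unpair.comp (Primrec.fst.comp (Primrec.snd.comp Primrec.snd)))
    have e2 : Primrec fun x : ℕ × ℕ × ℕ × ℕ => x.2.2.1.unpair.2 :=
      Primrec.snd.comp (Primrec.unpair.comp (Primrec.fst.comp (Primrec.snd.comp Primrec.snd)))
    have e3 : Primrec fun x : ℕ × ℕ × ℕ × ℕ => x.2.2.2.unpair.1 :=
      Primrec.fst.comp (Primrec.unpair.comp (Primrec.snd.comp (Primrec.snd.comp Primrec.snd)))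
    have e4 : Primrec fun x : ℕ × ℕ × ℕ × ℕ => x.2.2.2.unpair.2 :=
      Primrec.snd.comp (Primrec.unpair.comp (Primrec.snd.comp (Primrec.snd.comp Primrec.snd)))
    have e5 : Primrec fun x : ℕ × ℕ × ℕ × ℕ => x.1 := Primrec.fst
    have e6 : Primrec fun x : ℕ × ℕ × ℕ × ℕ => x.2.1 := Primrec.fst.comp Primrec.snd
    exact ((inW_comp e2 e5 e1).not.or (inW_comp e3 e6 e1)).and
      ((inW_comp e2 e6 e1).not.or (inW_comp e4 e5 e1))
  refine ⟨fun x => Q (f x.1, f x.2.1, x.2.2.2.1, x.2.2.2.2), ?_, ?_⟩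
  · classical
    have h1 : Computable fun x => decide (Q x) := hQ.decide.to_comp
    have h2 : Computable fun x : ℕ × ℕ × ℕ × ℕ × ℕ =>
        ((f x.1, f x.2.1, x.2.2.2.1, x.2.2.2.2) : ℕ × ℕ × ℕ × ℕ) :=
      (hf.comp Computable.fst).pair ((hf.comp (Computable.fst.comp Computable.snd)).pair
        ((Computable.fst.comp (Computable.snd.comp (Computable.snd.comp Computable.snd))).pair
          (Computable.snd.comp (Computable.snd.comp (Computable.snd.comp Computable.snd)))))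
    exact (h1.comp h2).computablePred
  · intro x y
    rw [hf', eqCE, Set.ext_iff]
    simp only [Q]
    constructor
    · intro h
      refine ⟨0, fun b => ?_⟩
      have h1 : ∃ c1, ¬ inW b.unpair.2 (f x) b.unpair.1 ∨ inW c1 (f y) b.unpair.1 := by
        by_cases h2 : inW b.unpair.2 (f x) b.unpair.1
        · obtain ⟨k, hk⟩ := mem_W_iff.1 ((h _).1 (mem_W_iff.2 ⟨_, h2⟩))
          exact ⟨k, Or.inr hk⟩
        · exact ⟨0, Or.inl h2⟩
      have h3 : ∃ c2, ¬ inW b.unpair.2 (f y) b.unpair.1 ∨ inW c2 (f x) b.unpair.1 := by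
        by_cases h2 : inW b.unpair.2 (f y) b.unpair.1
        · obtain ⟨k, hk⟩ := mem_W_iff.1 ((h _).2 (mem_W_iff.2 ⟨_, h2⟩))
          exact ⟨k, Or.inr hk⟩
        · exact ⟨0, Or.inl h2⟩
      obtain ⟨c1, hc1⟩ := h1
      obtain ⟨c2, hc2⟩ := h3
      refine ⟨Nat.pair c1 c2, ?_⟩
      rw [Nat.unpair_pair]
      exact ⟨hc1, hc2⟩
    · rintro ⟨_, h⟩ z
      constructor
      · intro hz
        obtain ⟨k, hk⟩ := mem_W_iff.1 hz
        obtain ⟨c, hc, _⟩ := h (Nat.pair z k)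
        rw [Nat.unpair_pair] at hc
        exact mem_W_iff.2 ⟨_, hc.resolve_left (fun h => h hk)⟩
      · intro hz
        obtain ⟨k, hk⟩ := mem_W_iff.1 hz
        obtain ⟨c, _, hc⟩ := h (Nat.pair z k)
        rw [Nat.unpair_pair] at hc
        exact mem_W_iff.2 ⟨_, hc.resolve_left (fun h => h hk)⟩

/-- A `Σ⁰₂` set which is not `Π⁰₂`. -/
def DSet : Set ℕ := {x | ∃ a, Nat.pair a x ∉ W x}

/-- The equivalence relation collapsing `DSet` to a point. -/
def DRel (x y : ℕ) : Prop := x = y ∨ (x ∈ DSet ∧ y ∈ DSet)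

theorem DRel_equivalence : Equivalence DRel := by
  refine ⟨fun x => Or.inl rfl, ?_, ?_⟩
  · rintro x y (h | ⟨h1, h2⟩)
    · exact Or.inl h.symm
    · exact Or.inr ⟨h2, h1⟩
  · rintro x y z (rfl | ⟨h1, h2⟩) h
    · exact h
    · rcases h with rfl | ⟨_, h4⟩
      · exact Or.inr ⟨h1, h2⟩
      · exact Or.inr ⟨h1, h4⟩

theorem DRel_isSigma3 : IsSigma3 DRel := by
  refine ⟨fun x => x.1 = x.2.1 ∨
    (¬ inW x.2.2.2.1 x.1 (Nat.pair x.2.2.1.unpair.1 x.1) ∧
      ¬ inW x.2.2.2.1 x.2.1 (Nat.pair x.2.2.1.unpair.2 x.2.1)), ?_, ?_⟩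
  · have e1 : Primrec fun x : ℕ × ℕ × ℕ × ℕ × ℕ => x.1 := Primrec.fst
    have e2 : Primrec fun x : ℕ × ℕ × ℕ × ℕ × ℕ => x.2.1 := Primrec.fst.comp Primrec.snd
    have e3 : Primrec fun x : ℕ × ℕ × ℕ × ℕ × ℕ => x.2.2.2.1 :=
      Primrec.fst.comp (Primrec.snd.comp (Primrec.snd.comp Primrec.snd))
    have e4 : Primrec fun x : ℕ × ℕ × ℕ × ℕ × ℕ => x.2.2.1.unpair.1 :=
      Primrec.fst.comp (Primrec.unpair.comp (Primrec.fst.comp (Primrec.snd.comp Primrec.snd)))
    have e5 : Primrec fun x : ℕ × ℕ × ℕ × ℕ × ℕ => x.2.2.1.unpair.2 :=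
      Primrec.snd.comp (Primrec.unpair.comp (Primrec.fst.comp (Primrec.snd.comp Primrec.snd)))
    exact ((Primrec.eq.comp e1 e2).or
      ((inW_comp e3 e1 (Primrec₂.natPair.comp e4 e1)).not.and
        (inW_comp e3 e2 (Primrec₂.natPair.comp e5 e2)).not)).computablePred
  · intro x y
    constructor
    · rintro (rfl | ⟨⟨a, ha⟩, ⟨b, hb⟩⟩)
      · exact ⟨0, fun _ => ⟨0, Or.inl rfl⟩⟩
      · refine ⟨Nat.pair a b, fun k => ⟨0, Or.inr ?_⟩⟩
        rw [Nat.unpair_pair]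
        exact ⟨fun h => ha (mem_W_iff.2 ⟨_, h⟩), fun h => hb (mem_W_iff.2 ⟨_, h⟩)⟩
    · rintro ⟨a, h⟩
      by_cases hxy : x = y
      · exact Or.inl hxy
      · refine Or.inr ⟨⟨a.unpair.1, fun h1 => ?_⟩, ⟨a.unpair.2, fun h1 => ?_⟩⟩
        · obtain ⟨k, hk⟩ := mem_W_iff.1 h1
          obtain ⟨_, h2⟩ := h k
          exact (h2.resolve_left hxy).1 hk
        · obtain ⟨k, hk⟩ := mem_W_iff.1 h1
          obtain ⟨_, h2⟩ := h k
          exact (h2.resolve_left hxy).2 hk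

theorem DRel_not_CRed : ¬ CRed DRel eqCE := by
  rintro ⟨f, hf, hf'⟩
  -- `DSet` is nonempty
  obtain ⟨a0, ha0⟩ : DSet.Nonempty := by
    have h1 : RE fun x : ℕ × ℕ => (fun _ _ : ℕ => False) x.1 x.2 :=
      RE.of_primrec ((Primrec.eq.comp (Primrec.const 0) (Primrec.const 1)).of_eq
        (p := fun _ : ℕ × ℕ => (0 : ℕ) = 1) fun _ => by simp)
    obtain ⟨g, _, hg⟩ := RE.smn (p := fun _ _ : ℕ => False) h1
    exact ⟨g 0, 0, fun h => (hg 0 _).1 h⟩
  have hA : ∀ x, x ∈ DSet ↔ ∀ z, z ∈ W (f x) ↔ z ∈ W (f a0) := by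
    intro x
    rw [← Set.ext_iff]
    have h1 := hf' x a0
    rw [eqCE] at h1
    rw [← h1]
    constructor
    · intro h
      exact Or.inr ⟨h, ha0⟩
    · rintro (rfl | h)
      · exact ha0
      · exact h.1
  -- a `Π⁰₂` description of `DSet`
  let P : ℕ → ℕ → Prop := fun x u =>
    (¬ inW u.unpair.2 (f x) u.unpair.1 ∨ u.unpair.1 ∈ W (f a0)) ∧
    (¬ inW u.unpair.2 (f a0) u.unpair.1 ∨ u.unpair.1 ∈ W (f x))
  have hP : RE fun x : ℕ × ℕ => P x.1 x.2 := by
    have e1 : Computable fun x : ℕ × ℕ => f x.1 := hf.comp Computable.fst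
    have e2 : Computable fun x : ℕ × ℕ => x.2.unpair.1 :=
      (Primrec.fst.comp (Primrec.unpair.comp Primrec.snd)).to_comp
    have e3 : Computable fun x : ℕ × ℕ => x.2.unpair.2 :=
      (Primrec.snd.comp (Primrec.unpair.comp Primrec.snd)).to_comp
    have g1 : RE fun y : ℕ × ℕ × ℕ => ¬ inW y.1 y.2.1 y.2.2 := RE.of_primrec inW_primrec.not
    refine RE.and (RE.or ?_ ?_) (RE.or ?_ ?_)
    · exact g1.comp_computable (f := fun x : ℕ × ℕ => (x.2.unpair.2, f x.1, x.2.unpair.1))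
        (e3.pair (e1.pair e2))
    · exact RE.mem_W.comp_computable (f := fun x : ℕ × ℕ => (f a0, x.2.unpair.1))
        ((Computable.const _).pair e2)
    · exact g1.comp_computable (f := fun x : ℕ × ℕ => (x.2.unpair.2, f a0, x.2.unpair.1))
        (e3.pair ((Computable.const _).pair e2))
    · exact RE.mem_W.comp_computable (f := fun x : ℕ × ℕ => (f x.1, x.2.unpair.1))
        (e1.pair e2)
  have hPA : ∀ x, x ∈ DSet ↔ ∀ u, P x u := by
    intro x
    rw [hA]
    constructor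
    · intro h u
      constructor
      · by_cases h1 : inW u.unpair.2 (f x) u.unpair.1
        · exact Or.inr ((h _).1 (mem_W_iff.2 ⟨_, h1⟩))
        · exact Or.inl h1
      · by_cases h1 : inW u.unpair.2 (f a0) u.unpair.1
        · exact Or.inr ((h _).2 (mem_W_iff.2 ⟨_, h1⟩))
        · exact Or.inl h1
    · intro h z
      constructor
      · intro hz
        obtain ⟨k, hk⟩ := mem_W_iff.1 hz
        have h1 := (h (Nat.pair z k)).1
        rw [Nat.unpair_pair] at h1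
        exact h1.resolve_left (fun h => h hk)
      · intro hz
        obtain ⟨k, hk⟩ := mem_W_iff.1 hz
        have h1 := (h (Nat.pair z k)).2
        rw [Nat.unpair_pair] at h1
        exact h1.resolve_left (fun h => h hk)
  have hP2 : RE fun x : ℕ × ℕ => (fun _ y : ℕ => P y.unpair.2 y.unpair.1) x.1 x.2 :=
    hP.comp (f := fun x : ℕ × ℕ => (x.2.unpair.2, x.2.unpair.1))
      ((Primrec.snd.comp (Primrec.unpair.comp Primrec.snd)).pair
        (Primrec.fst.comp (Primrec.unpair.comp Primrec.snd)))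
  obtain ⟨g, _, hg⟩ := RE.smn (p := fun _ y : ℕ => P y.unpair.2 y.unpair.1) hP2
  have h1 : g 0 ∈ DSet ↔ ∀ u, Nat.pair u (g 0) ∈ W (g 0) := by
    rw [hPA]
    refine forall_congr' fun u => ?_
    rw [hg]
    simp
  have h2 : g 0 ∈ DSet ↔ ¬ ∀ u, Nat.pair u (g 0) ∈ W (g 0) := by
    rw [not_forall]
    rfl
  tauto

/-- There are computable numberings of the equations. -/
theorem nonempty_numbering (n : ℕ) [NeZero n] : Nonempty (Numbering S2 n) := by
  let d : ℕ → Wd × Wd := fun m => (Encodable.decode (α := Wd × Wd) m).getD (([], 0), ([], 0))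
  have hd : Primrec d := Primrec.option_getD.comp Primrec.decode (Primrec.const _)
  let T : Wd → Term S2 (Fin n) := fun u => ctx u.1 (.var (Fin.ofNat n u.2))
  have hT : ∀ u, (T u).code = codeW (u.1, u.2 % n) := by
    intro u
    rw [code_eq]
    simp only [T]
    rw [wd_ctx]
    simp [wd, Fin.ofNat]
  have hT2 : ∀ t : Term S2 (Fin n), T (wd t) = t := by
    intro t
    apply wd_injective
    exact wd_ctx_var t.toWd.2.isLt
  refine ⟨⟨fun m => (T (d m).1, T (d m).2), ?_, ?_⟩⟩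
  · rintro ⟨s, t⟩
    refine ⟨Encodable.encode (wd s, wd t), ?_⟩
    simp only [d, Encodable.encodek, Option.getD_some, hT2]
  · have h1 : Primrec fun u : Wd => codeW (u.1, u.2 % n) :=
      codeW_primrec.comp (Primrec.fst.pair (Primrec.nat_mod.comp Primrec.snd (Primrec.const n)))
    have h2 : Primrec fun m => (codeW ((d m).1.1, (d m).1.2 % n), codeW ((d m).2.1, (d m).2.2 % n)) :=
      (h1.comp (Primrec.fst.comp hd)).pair (h1.comp (Primrec.snd.comp hd))
    refine h2.to_comp.of_eq fun m => ?_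
    simp only [hT]

theorem V2_nontrivial : V2.Nontrivial := by
  refine ⟨Bool, opsOf fun _ a => a, ?_, true, false, by simp⟩
  rw [holds_iff_lawful, opOf_opsOf]
  intro b a
  rfl

end Pool.Agent.Work.MP_f76ce6_lc
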