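import Pool.Agent.Work.MP_f76ce6_lc.Upper

/-!
# The lower bound: equality of c.e. sets is computably reducible to the isomorphism relation
-/

namespace Pool.Agent.Work.MP_f76ce6_lc

/-- The coding equations, on words: `t s^(2i) x_0 = t s^(2i+1) x_0` for `i ∈ W e`, and
`x_k = x_0` for `k < n`. -/
def EqL (n e : ℕ) (l r : Wd) : Prop :=
  (∃ i, i ∈ W e ∧ (l = (true :: List.replicate (2 * i) false, 0) ∧
    r = (true :: List.replicate (2 * i + 1) false, 0))) ∨
  ((l.1 = [] ∧ l.2 < n) ∧ r = ([], 0))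

theorem replicate_primrec : Primrec fun i : ℕ => List.replicate i false := by
  have h : Primrec fun i : ℕ => (List.range i).map fun _ => false :=
    Primrec.list_map Primrec.list_range (Primrec.const false).to₂
  refine h.of_eq fun i => ?_
  simp

theorem EqL_RE (n : ℕ) : RE fun x : ℕ × Wd × Wd => EqL n x.1 x.2.1 x.2.2 := by
  unfold EqL
  refine RE.or ?_ (RE.of_primrec ?_)
  · refine RE.ex ?_
    refine RE.and ?_ (RE.of_primrec (PrimrecPred.and ?_ ?_))
    · exact RE.mem_W.comp (f := fun y : (ℕ × Wd × Wd) × ℕ => (y.1.1, y.2))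
        ((Primrec.fst.comp Primrec.fst).pair Primrec.snd)
    · refine Primrec.eq.comp (Primrec.fst.comp (Primrec.snd.comp Primrec.fst)) ?_
      exact (Primrec.list_cons.comp (Primrec.const true) (replicate_primrec.comp
        (Primrec.nat_mul.comp (Primrec.const 2) Primrec.snd))).pair (Primrec.const 0)
    · refine Primrec.eq.comp (Primrec.snd.comp (Primrec.snd.comp Primrec.fst)) ?_
      exact (Primrec.list_cons.comp (Primrec.const true) (replicate_primrec.comp
        (Primrec.succ.comp (Primrec.nat_mul.comp (Primrec.const 2) Primrec.snd)))).pair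
          (Primrec.const 0)
  · refine PrimrecPred.and (PrimrecPred.and ?_ ?_) ?_
    · exact Primrec.eq.comp (Primrec.fst.comp (Primrec.fst.comp Primrec.snd)) (Primrec.const [])
    · exact Primrec.nat_lt.comp (Primrec.snd.comp (Primrec.fst.comp Primrec.snd))
        (Primrec.const n)
    · exact Primrec.eq.comp (Primrec.snd.comp Primrec.snd) (Primrec.const ([], 0))

/-- From a uniformly r.e. set of equations between words obtain indices of sets of numbers of
equations. -/
theorem exists_index {n : ℕ} (ν : Numbering S2 n) {P : ℕ → Wd → Wd → Prop}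
    (hP : RE fun x : ℕ × Wd × Wd => P x.1 x.2.1 x.2.2) :
    ∃ g : ℕ → ℕ, Computable g ∧ ∀ e, ∀ p : Term S2 (Fin n) × Term S2 (Fin n),
      p ∈ ν.eqns (W (g e)) ↔ P e (wd p.1) (wd p.2) := by
  have h1 : RE fun x : ℕ × ℕ => ∃ lr : Wd × Wd, P x.1 lr.1 lr.2 ∧
      cod ν x.2 = (codeW lr.1, codeW lr.2) := by
    refine RE.ex ?_
    refine RE.and ?_ ?_
    · exact hP.comp (f := fun y : (ℕ × ℕ) × (Wd × Wd) => (y.1.1, y.2.1, y.2.2))
        ((Primrec.fst.comp Primrec.fst).pair
          ((Primrec.fst.comp Primrec.snd).pair (Primrec.snd.comp Primrec.snd)))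
    · have h : RE fun y : (ℕ × ℕ) × (ℕ × ℕ) => y.1 = y.2 := RE.of_primrec Primrec.eq
      refine h.comp_computable
        (f := fun y : (ℕ × ℕ) × (Wd × Wd) => (cod ν y.1.2, (codeW y.2.1, codeW y.2.2))) ?_
      refine Computable.pair (ν.computable.comp (Computable.snd.comp Computable.fst)) ?_
      exact ((codeW_primrec.comp (Primrec.fst.comp Primrec.snd)).pair
        (codeW_primrec.comp (Primrec.snd.comp Primrec.snd))).to_comp
  obtain ⟨g, hg, hgW⟩ := RE.smn (p := fun e m => ∃ lr : Wd × Wd, P e lr.1 lr.2 ∧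
      cod ν m = (codeW lr.1, codeW lr.2)) h1
  refine ⟨g, hg, fun e p => ?_⟩
  constructor
  · rintro ⟨m, hm, rfl⟩
    rw [hgW] at hm
    obtain ⟨⟨l, r⟩, h2, h3⟩ := hm
    rw [cod, code_eq, code_eq, Prod.mk.injEq] at h3
    rw [codeW_injective h3.1, codeW_injective h3.2]
    exact h2
  · intro h
    obtain ⟨m, hm⟩ := ν.surjective p
    refine ⟨m, ?_, hm⟩
    rw [hgW]
    refine ⟨(wd p.1, wd p.2), h, ?_⟩
    rw [cod, code_eq, code_eq, hm]

/-- Operations from a pair of unary maps. -/
def opsOf {A : Type} (op : Bool → A → A) : Ops S2 A :=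
  fun f _ args => op (decide (f = 1)) (args (0 : Fin 1))

theorem opOf_opsOf {A : Type} (op : Bool → A → A) : opOf (opsOf op) = op := by
  funext b a
  cases b <;> rfl

section EvalHom

variable {X A : Type} {E : Set (Term S2 X × Term S2 X)} {I : Ops S2 A}

/-- The homomorphism out of a presented algebra. -/
def evalHom (hV : V2.Holds I) {v : X → A} (hE : ∀ p ∈ E, p.1.eval I v = p.2.eval I v)
    (q : Presented V2 E) : A :=
  Quotient.lift (s := congSetoid V2 E) (fun t => t.eval I v) (fun _ _ h => Cong.sound hV hE h) q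

theorem evalHom_mk (hV : V2.Holds I) {v : X → A} (hE : ∀ p ∈ E, p.1.eval I v = p.2.eval I v)
    (t : Term S2 X) : evalHom hV hE (Presented.mk V2 E t) = t.eval I v := rfl

theorem evalHom_op (hV : V2.Holds I) {v : X → A} (hE : ∀ p ∈ E, p.1.eval I v = p.2.eval I v)
    (b : Bool) (q : Presented V2 E) :
    evalHom hV hE (opOf (Presented.ops V2 E) b q) = opOf I b (evalHom hV hE q) := by
  rw [← Presented.mk_rep q, opOf_mk, evalHom_mk, evalHom_mk, eval_un]

end EvalHom

open Classical in
/-- The model: `inl i` is `s^i x`, `inr j` is a value of `t`; `t s^(2i) x = t s^(2i+1) x` holds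
exactly when `i ∈ U`. -/
noncomputable def mop (U : Set ℕ) : Bool → ℕ ⊕ ℕ → ℕ ⊕ ℕ
  | _, .inr j => .inr j
  | false, .inl i => .inl (i + 1)
  | true, .inl i => .inr (if i % 2 = 1 ∧ i / 2 ∈ U then i - 1 else i)

theorem mop_lawful (U : Set ℕ) : Lawful (mop U) := by
  intro b a
  rcases a with i | j
  · cases b <;> rfl
  · cases b <;> rfl

theorem act_mop_replicate (U : Set ℕ) (j : ℕ) :
    act (mop U) (List.replicate j false) (.inl 0) = .inl j := by
  induction j with
  | zero => rfl
  | succ j ih => rw [List.replicate_succ, act_cons, ih]; rfl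

theorem act_mop_even (U : Set ℕ) (i : ℕ) :
    act (mop U) (true :: List.replicate (2 * i) false) (.inl 0) = .inr (2 * i) := by
  rw [act_cons, act_mop_replicate]
  simp [mop]

theorem act_mop_odd (U : Set ℕ) (i : ℕ) :
    act (mop U) (true :: List.replicate (2 * i + 1) false) (.inl 0) = .inr (2 * i) ↔ i ∈ U := by
  classical
  rw [act_cons, act_mop_replicate]
  have h1 : (2 * i + 1) % 2 = 1 := by omega
  have h2 : (2 * i + 1) / 2 = i := by omega
  by_cases h : i ∈ U
  · have h3 : mop U true (.inl (2 * i + 1)) = .inr (2 * i + 1 - 1) :=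
      congrArg Sum.inr (if_pos ⟨h1, by rw [h2]; exact h⟩)
    rw [h3]
    simp [h]
  · have h3 : mop U true (.inl (2 * i + 1)) = .inr (2 * i + 1) :=
      congrArg Sum.inr (if_neg fun h4 => h (by rw [← h2]; exact h4.2))
    rw [h3]
    simp [h]

theorem mop_ne_inl_zero (U : Set ℕ) (b : Bool) (a : ℕ ⊕ ℕ) : mop U b a ≠ .inl 0 := by
  rcases a with i | j
  · cases b <;> simp [mop]
  · simp [mop]

theorem eval_eq_act {A : Type} {n : ℕ} (op : Bool → A → A) (a : A) (t : Term S2 (Fin n)) :
    t.eval (opsOf op) (fun _ => a) = act op (wd t).1 a := by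
  conv_lhs => rw [← ctx_toWd t]
  rw [eval_ctx, opOf_opsOf]
  rfl

theorem model_eqns {n : ℕ} {e : ℕ} {p : Term S2 (Fin n) × Term S2 (Fin n)}
    (h : EqL n e (wd p.1) (wd p.2)) :
    p.1.eval (opsOf (mop (W e))) (fun _ => .inl 0) = p.2.eval (opsOf (mop (W e))) (fun _ => .inl 0) := by
  rw [eval_eq_act, eval_eq_act]
  rcases h with ⟨i, hi, h1, h2⟩ | ⟨⟨h1, _⟩, h2⟩
  · rw [h1, h2, act_mop_even, (act_mop_odd _ _).2 hi]
  · rw [h1, h2]

theorem subset_of_isomorphic {n : ℕ} [NeZero n] {e e' : ℕ}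
    {E E' : Set (Term S2 (Fin n) × Term S2 (Fin n))}
    (hE : ∀ p, p ∈ E ↔ EqL n e (wd p.1) (wd p.2))
    (hE' : ∀ p, p ∈ E' ↔ EqL n e' (wd p.1) (wd p.2))
    (h : Isomorphic (Presented.ops V2 E) (Presented.ops V2 E')) : W e ⊆ W e' := by
  rw [isomorphic_iff] at h
  obtain ⟨φ, hφ⟩ := h
  have hV : V2.Holds (opsOf (mop (W e'))) := by
    rw [holds_iff_lawful, opOf_opsOf]
    exact mop_lawful _
  have hM : ∀ p ∈ E', p.1.eval (opsOf (mop (W e'))) (fun _ => .inl 0) =
      p.2.eval (opsOf (mop (W e'))) (fun _ => .inl 0) := fun p hp => model_eqns ((hE' p).1 hp)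
  let h' : Presented V2 E' → ℕ ⊕ ℕ := evalHom hV hM
  have hh' : ∀ b q, h' (opOf (Presented.ops V2 E') b q) = mop (W e') b (h' q) := by
    intro b q
    have := evalHom_op hV hM b q
    rw [opOf_opsOf] at this
    exact this
  let x0 : Presented V2 E := Presented.mk V2 E (.var 0)
  let y : ℕ ⊕ ℕ := h' (φ x0)
  have hcomp : ∀ w q, h' (φ (act (opOf (Presented.ops V2 E)) w q)) =
      act (mop (W e')) w (h' (φ q)) := by
    intro w q
    rw [map_act φ hφ, map_act h' hh']
  -- every element of the first algebra is obtained from `x0`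
  have hgen : ∀ q : Presented V2 E, ∃ w, q = act (opOf (Presented.ops V2 E)) w x0 := by
    intro q
    refine ⟨q.rep.toWd.1, ?_⟩
    rw [act_mk, ← Presented.mk_rep q, Presented.mk_eq, Presented.mk_rep]
    conv_lhs => rw [← ctx_toWd q.rep]
    refine Cong.ctx _ ?_
    have hmem : ((Term.var q.rep.toWd.2, Term.var 0) : Term S2 (Fin n) × Term S2 (Fin n)) ∈ E := by
      rw [hE]
      refine Or.inr ⟨⟨rfl, ?_⟩, ?_⟩
      · exact q.rep.toWd.2.isLt
      · simp [wd]
    exact Cong.rel hmem
  have hy : y = .inl 0 := by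
    obtain ⟨w, hw⟩ := hgen (φ.symm (Presented.mk V2 E' (.var 0)))
    have h1 : h' (φ (φ.symm (Presented.mk V2 E' (.var 0)))) = act (mop (W e')) w y := by
      rw [hw, hcomp]
    rw [Equiv.apply_symm_apply] at h1
    have h2 : h' (Presented.mk V2 E' (.var 0)) = .inl 0 := rfl
    rw [h2] at h1
    cases w with
    | nil => exact h1.symm
    | cons b w =>
      rw [act_cons] at h1
      exact absurd h1.symm (mop_ne_inl_zero _ _ _)
  intro i hi
  have hmem : ((ctx (true :: List.replicate (2 * i) false) (.var 0),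
      ctx (true :: List.replicate (2 * i + 1) false) (.var 0)) :
      Term S2 (Fin n) × Term S2 (Fin n)) ∈ E := by
    rw [hE]
    refine Or.inl ⟨i, hi, ?_, ?_⟩
    · rw [wd_ctx]; simp [wd]
    · rw [wd_ctx]; simp [wd]
  have h1 : act (opOf (Presented.ops V2 E)) (true :: List.replicate (2 * i) false) x0 =
      act (opOf (Presented.ops V2 E)) (true :: List.replicate (2 * i + 1) false) x0 := by
    rw [act_mk, act_mk, Presented.mk_eq]
    exact Cong.rel hmem
  have h2 := congrArg (fun q => h' (φ q)) h1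
  simp only [hcomp] at h2
  have h3 : h' (φ x0) = .inl 0 := hy
  rw [h3, act_mop_even] at h2
  exact (act_mop_odd _ _).1 h2.symm

/-- Lower bound. -/
theorem eqCE_le_isoRel {n : ℕ} [NeZero n] (ν : Numbering S2 n) : CRed eqCE (isoRel V2 ν) := by
  obtain ⟨g, hg, hgE⟩ := exists_index ν (EqL_RE n)
  refine ⟨g, hg, fun e e' => ?_⟩
  constructor
  · intro h
    have hEE : ν.eqns (W (g e)) = ν.eqns (W (g e')) := by
      ext p
      rw [hgE, hgE]
      have h' : W e = W e' := h
      unfold EqL
      rw [h']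
    unfold isoRel
    rw [hEE]
    exact ⟨Equiv.refl _, fun _ _ _ => rfl⟩
  · intro h
    have h1 := subset_of_isomorphic (hgE e) (hgE e') h
    have h2 : Isomorphic (Presented.ops V2 (ν.eqns (W (g e'))))
        (Presented.ops V2 (ν.eqns (W (g e)))) := by
      obtain ⟨φ, hφ⟩ := h
      refine ⟨φ.symm, fun f hf args => ?_⟩
      rw [Equiv.symm_apply_eq, hφ]
      congr 1
      funext i
      rw [Equiv.apply_symm_apply]
    exact Set.Subset.antisymm h1 (subset_of_isomorphic (hgE e') (hgE e) h2)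

end Pool.Agent.Work.MP_f76ce6_lc
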