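import Pool.Agent.Work.MP_f76ce6_lc.Defs

/-!
# A small toolkit for recursively enumerable predicates
-/

namespace Pool.Agent.Work.MP_f76ce6_lc

open Nat.Partrec (Code)

/-- `Σ₁` normal form of a predicate, with a monotone primitive recursive matrix. -/
def RE {α : Type*} [Primcodable α] (p : α → Prop) : Prop :=
  ∃ Q : α → ℕ → Prop, PrimrecRel Q ∧ (∀ a k l, k ≤ l → Q a k → Q a l) ∧
    ∀ a, p a ↔ ∃ k, Q a k

namespace RE

variable {α β γ : Type*} [Primcodable α] [Primcodable β] [Primcodable γ]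

theorem of_eq {p q : α → Prop} (hp : RE p) (h : ∀ a, p a ↔ q a) : RE q := by
  obtain ⟨Q, h1, h2, h3⟩ := hp
  exact ⟨Q, h1, h2, fun a => (h a).symm.trans (h3 a)⟩

theorem of_primrec {p : α → Prop} (hp : PrimrecPred p) : RE p :=
  ⟨fun a _ => p a, hp.comp Primrec.fst, fun _ _ _ _ h => h, fun _ => by simp⟩

theorem comp {p : α → Prop} (hp : RE p) {f : β → α} (hf : Primrec f) : RE fun b => p (f b) := by
  obtain ⟨Q, h1, h2, h3⟩ := hp
  exact ⟨fun b k => Q (f b) k, h1.comp (hf.comp Primrec.fst) Primrec.snd,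
    fun b k l hkl h => h2 _ _ _ hkl h, fun b => h3 (f b)⟩

theorem and {p q : α → Prop} (hp : RE p) (hq : RE q) : RE fun a => p a ∧ q a := by
  obtain ⟨P, h1, h2, h3⟩ := hp
  obtain ⟨Q, g1, g2, g3⟩ := hq
  refine ⟨fun a k => P a k ∧ Q a k, PrimrecPred.and h1 g1,
    fun a k l hkl h => ⟨h2 _ _ _ hkl h.1, g2 _ _ _ hkl h.2⟩, fun a => ?_⟩
  beta_reduce
  rw [h3, g3]
  constructor
  · rintro ⟨⟨k, hk⟩, ⟨l, hl⟩⟩
    exact ⟨max k l, h2 _ _ _ (le_max_left _ _) hk, g2 _ _ _ (le_max_right _ _) hl⟩
  · rintro ⟨k, hk, hl⟩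
    exact ⟨⟨k, hk⟩, ⟨k, hl⟩⟩

theorem or {p q : α → Prop} (hp : RE p) (hq : RE q) : RE fun a => p a ∨ q a := by
  obtain ⟨P, h1, h2, h3⟩ := hp
  obtain ⟨Q, g1, g2, g3⟩ := hq
  refine ⟨fun a k => P a k ∨ Q a k, PrimrecPred.or h1 g1,
    fun a k l hkl h => h.imp (h2 _ _ _ hkl) (g2 _ _ _ hkl), fun a => ?_⟩
  beta_reduce
  rw [h3, g3]
  constructor
  · rintro (⟨k, hk⟩ | ⟨l, hl⟩)
    · exact ⟨k, Or.inl hk⟩
    · exact ⟨l, Or.inr hl⟩
  · rintro ⟨k, hk | hl⟩
    · exact Or.inl ⟨k, hk⟩
    · exact Or.inr ⟨k, hl⟩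

/-- Closure under unbounded existential quantification over a coded type. -/
theorem ex {p : α → β → Prop} (hp : RE fun ab : α × β => p ab.1 ab.2) :
    RE fun a => ∃ b, p a b := by
  classical
  obtain ⟨Q, h1, h2, h3⟩ := hp
  let R : ℕ → α × ℕ → Prop := fun i ak =>
    ((Encodable.decode (α := β) i).map fun b => decide (Q (ak.1, b) ak.2)).getD false = true
  have hR : PrimrecRel R := by
    refine Primrec.eq.comp ?_ (Primrec.const true)
    refine Primrec.option_getD.comp ?_ (Primrec.const false)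
    refine Primrec.option_map (Primrec.decode.comp Primrec.fst) ?_
    have h1' : Primrec₂ fun (x : α × β) (k : ℕ) => decide (Q x k) := h1.decide
    exact h1'.comp
      (((Primrec.fst.comp (Primrec.snd.comp Primrec.fst))).pair Primrec.snd)
      (Primrec.snd.comp (Primrec.snd.comp Primrec.fst))
  have hRspec : ∀ i ak, R i ak ↔ ∃ b, Encodable.decode (α := β) i = some b ∧ Q (ak.1, b) ak.2 := by
    intro i ak
    simp only [R]
    cases h : Encodable.decode (α := β) i with
    | none => simp
    | some b => simp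
  refine ⟨fun a k => ∃ i < k, R i (a, k), ?_, ?_, ?_⟩
  · have := hR.exists_mem_list
    have h := this.comp (f := fun x : α × ℕ => List.range x.2) (g := fun x : α × ℕ => x)
      (Primrec.list_range.comp Primrec.snd) Primrec.id
    refine PrimrecPred.of_eq h ?_
    intro x
    simp
  · rintro a k l hkl ⟨i, hi, h⟩
    rw [hRspec] at h
    obtain ⟨b, hb, hQ⟩ := h
    exact ⟨i, lt_of_lt_of_le hi hkl, (hRspec _ _).2 ⟨b, hb, h2 _ _ _ hkl hQ⟩⟩
  · intro a
    constructor
    · rintro ⟨b, hb⟩
      obtain ⟨k, hk⟩ := (h3 (a, b)).1 hb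
      refine ⟨max k (Encodable.encode b + 1), Encodable.encode b, ?_, ?_⟩
      · exact lt_of_lt_of_le (Nat.lt_succ_self _) (le_max_right _ _)
      · exact (hRspec _ _).2 ⟨b, Encodable.encodek b, h2 _ _ _ (le_max_left _ _) hk⟩
    · rintro ⟨k, i, _, h⟩
      rw [hRspec] at h
      obtain ⟨b, _, hQ⟩ := h
      exact ⟨b, (h3 (a, b)).2 ⟨k, hQ⟩⟩

/-- Closure under universal quantification over the members of a list. -/
theorem all_mem {p : β → α → Prop} (hp : RE fun ba : β × α => p ba.1 ba.2) :
    RE fun x : List β × α => ∀ b ∈ x.1, p b x.2 := by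
  classical
  obtain ⟨Q, h1, h2, h3⟩ := hp
  let R : β → α × ℕ → Prop := fun b ak => Q (b, ak.1) ak.2
  have hR : PrimrecRel R := by
    refine h1.comp ?_ ?_
    · exact Primrec.fst.pair (Primrec.fst.comp Primrec.snd)
    · exact Primrec.snd.comp Primrec.snd
  refine ⟨fun x k => ∀ b ∈ x.1, R b (x.2, k), ?_, ?_, ?_⟩
  · have h := hR.forall_mem_list.comp (f := fun x : (List β × α) × ℕ => x.1.1)
      (g := fun x : (List β × α) × ℕ => (x.1.2, x.2))
      (Primrec.fst.comp Primrec.fst)
      ((Primrec.snd.comp Primrec.fst).pair Primrec.snd)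
    exact h
  · intro x k l hkl h b hb
    exact h2 _ _ _ hkl (h b hb)
  · rintro ⟨L, a⟩
    simp only [R]
    constructor
    · intro h
      induction L with
      | nil => exact ⟨0, by simp⟩
      | cons b L ih =>
        obtain ⟨k, hk⟩ := ih fun b hb => h b (List.mem_cons_of_mem _ hb)
        obtain ⟨l, hl⟩ := (h3 (b, a)).1 (h b List.mem_cons_self)
        refine ⟨max k l, ?_⟩
        intro c hc
        rcases List.mem_cons.1 hc with rfl | hc
        · exact h2 _ _ _ (le_max_right _ _) hl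
        · exact h2 _ _ _ (le_max_left _ _) (hk c hc)
    · rintro ⟨k, hk⟩ b hb
      exact (h3 (b, a)).2 ⟨k, hk b hb⟩

/-- Closure under bounded universal quantification. -/
theorem all_lt {p : ℕ → α → Prop} (hp : RE fun ba : ℕ × α => p ba.1 ba.2) :
    RE fun x : ℕ × α => ∀ k < x.1, p k x.2 := by
  have h := (all_mem hp).comp (f := fun x : ℕ × α => (List.range x.1, x.2))
    ((Primrec.list_range.comp Primrec.fst).pair Primrec.snd)
  exact h.of_eq fun x => by simp

/-- Membership in the `e`-th c.e. set is uniformly r.e. -/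
theorem mem_W : RE fun x : ℕ × ℕ => x.2 ∈ W x.1 := by
  refine ⟨fun x k => (Code.evaln k (Denumerable.ofNat Code x.1) x.2).isSome = true, ?_, ?_, ?_⟩
  · refine Primrec.eq.comp ?_ (Primrec.const true)
    refine Primrec.option_isSome.comp ?_
    exact Code.primrec_evaln.comp
      ((Primrec.snd.pair ((Primrec.ofNat Code).comp (Primrec.fst.comp Primrec.fst))).pair
        (Primrec.snd.comp Primrec.fst))
  · intro x k l hkl h
    rw [Option.isSome_iff_exists] at h ⊢
    obtain ⟨y, hy⟩ := h
    exact ⟨y, Code.evaln_mono hkl hy⟩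
  · intro x
    simp only [W, Set.mem_ofPred_eq, Part.dom_iff_mem, Code.evaln_complete,
      Option.isSome_iff_exists, Option.mem_def]
    exact exists_comm

/-- A predicate in `Σ₁` normal form is recursively enumerable. -/
theorem rePred {p : α → Prop} (hp : RE p) : REPred p := by
  classical
  obtain ⟨Q, h1, _, h3⟩ := hp
  have hQ : Computable₂ fun (a : α) (k : ℕ) => decide (Q a k) := (h1.decide : Primrec₂ _).to_comp
  have h : Partrec fun a => Nat.rfind fun k => (Part.some (decide (Q a k)) : Part Bool) :=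
    Partrec.rfind hQ.partrec₂
  refine h.dom_re.of_eq fun a => ?_
  rw [h3]
  refine Iff.trans Nat.rfind_dom' ?_
  constructor
  · rintro ⟨k, hk, _⟩
    exact ⟨k, by simpa using hk⟩
  · rintro ⟨k, hk⟩
    exact ⟨k, by simpa using hk, fun _ => trivial⟩

/-- A recursively enumerable predicate is in `Σ₁` normal form. -/
theorem of_rePred {p : α → Prop} (hp : REPred p) : RE p := by
  classical
  have h0 : Partrec fun a => Part.assert (p a) fun _ => Part.some () := hp
  have h : Partrec fun a => (Part.assert (p a) fun _ => Part.some ()).map fun _ => (0 : ℕ) :=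
    h0.map (Computable.const 0).to₂
  obtain ⟨c, hc⟩ := Code.exists_code.1 h
  have key : ∀ a, (Code.eval c (Encodable.encode a)).Dom ↔ p a := by
    intro a
    rw [hc]
    simp [Part.assert, Part.dom_iff_mem]
  have h2 : RE fun a : α => Encodable.encode a ∈ W (Encodable.encode c) :=
    mem_W.comp (f := fun a : α => (Encodable.encode c, Encodable.encode a))
      ((Primrec.const _).pair Primrec.encode)
  refine h2.of_eq fun a => ?_
  simp [W, key]

theorem comp_computable {p : α → Prop} (hp : RE p) {f : β → α} (hf : Computable f) :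
    RE fun b => p (f b) := by
  apply of_rePred
  have h := hp.rePred
  exact Partrec.comp h hf

theorem of_computable {p : α → Prop} (hp : ComputablePred p) : RE p := of_rePred hp.to_re

/-- The s-m-n theorem for `Σ₁` predicates. -/
theorem smn {p : ℕ → ℕ → Prop} (hp : RE fun x : ℕ × ℕ => p x.1 x.2) :
    ∃ f : ℕ → ℕ, Computable f ∧ ∀ e x, x ∈ W (f e) ↔ p e x := by
  have h := hp.rePred
  have h' : Partrec fun n : ℕ => (Part.assert (p n.unpair.1 n.unpair.2) fun _ => Part.some (0 : ℕ)) := by
    have := (h.comp (Computable.unpair)).map (Computable.const (0 : ℕ)).to₂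
    refine this.of_eq fun n => ?_
    ext x
    simp [eq_comm]
  obtain ⟨c, hc⟩ := Code.exists_code.1 (Partrec.nat_iff.1 h')
  refine ⟨fun e => Encodable.encode (Code.curry c e), ?_, ?_⟩
  · exact (Primrec.encode.comp (Code.primrec₂_curry.comp (Primrec.const c) Primrec.id)).to_comp
  · intro e x
    simp only [W, Denumerable.ofNat_encode, Set.mem_ofPred_eq, Code.eval_curry]
    rw [hc]
    simp [Part.assert]

end RE

end Pool.Agent.Work.MP_f76ce6_lc
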