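import Pool.Agent.Work.MP_f76ce6_lc.RE

/-!
# Uniform enumerability of a reflexive transitive closure
-/

namespace Pool.Agent.Work.MP_f76ce6_lc

/-- One step of following a list of links. -/
def follow {β : Type*} [DecidableEq β] (st : Option β) (p : β × β) : Option β :=
  if st = some p.1 then some p.2 else none

theorem foldl_follow_none {β : Type*} [DecidableEq β] (L : List (β × β)) :
    L.foldl follow none = none := by
  induction L with
  | nil => rfl
  | cons p L ih => simpa [follow] using ih

theorem reflTransGen_iff_exists_list {β : Type*} [DecidableEq β] {r : β → β → Prop} {u v : β} :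
    Relation.ReflTransGen r u v ↔
      ∃ L : List (β × β), (L.foldl follow (some u) = some v) ∧ ∀ p ∈ L, r p.1 p.2 := by
  constructor
  · intro h
    induction h using Relation.ReflTransGen.head_induction_on with
    | refl => exact ⟨[], rfl, by simp⟩
    | @head a b hab _ ih =>
      obtain ⟨L, h1, h2⟩ := ih
      refine ⟨(a, b) :: L, ?_, ?_⟩
      · simpa [follow] using h1
      · intro p hp
        rcases List.mem_cons.1 hp with rfl | hp
        · exact hab
        · exact h2 p hp
  · rintro ⟨L, h1, h2⟩
    induction L generalizing u with
    | nil =>
      simp only [List.foldl_nil, Option.some.injEq] at h1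
      subst h1
      exact Relation.ReflTransGen.refl
    | cons p L ih =>
      simp only [List.foldl_cons] at h1
      by_cases h : u = p.1
      · subst h
        have h3 : follow (some p.1) p = some p.2 := by simp [follow]
        rw [h3] at h1
        exact Relation.ReflTransGen.head (h2 p List.mem_cons_self)
          (ih h1 fun q hq => h2 q (List.mem_cons_of_mem _ hq))
      · have h3 : follow (some u) p = none := by simp [follow, h]
        rw [h3, foldl_follow_none] at h1
        exact absurd h1 (by simp)

theorem RE.reflTransGen {α β : Type*} [Primcodable α] [Primcodable β]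
    {step : α → β → β → Prop}
    (hs : RE fun x : α × β × β => step x.1 x.2.1 x.2.2) :
    RE fun x : α × β × β => Relation.ReflTransGen (step x.1) x.2.1 x.2.2 := by
  classical
  have h1 : RE fun y : (α × β × β) × List (β × β) =>
      (y.2.foldl follow (some y.1.2.1) = some y.1.2.2) ∧ ∀ p ∈ y.2, step y.1.1 p.1 p.2 := by
    refine RE.and ?_ ?_
    · refine RE.of_primrec ?_
      refine Primrec.eq.comp ?_ ?_
      · have hf : Primrec₂ fun (_ : (α × β × β) × List (β × β)) (sp : Option β × (β × β)) =>
            follow sp.1 sp.2 := by
          unfold follow
          refine Primrec.ite ?_ ?_ ?_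
          · refine Primrec.eq.comp (Primrec.fst.comp Primrec.snd) ?_
            exact Primrec.option_some.comp (Primrec.fst.comp (Primrec.snd.comp Primrec.snd))
          · exact Primrec.option_some.comp (Primrec.snd.comp (Primrec.snd.comp Primrec.snd))
          · exact Primrec.const none
        exact Primrec.list_foldl Primrec.snd
          (Primrec.option_some.comp (Primrec.fst.comp (Primrec.snd.comp Primrec.fst))) hf
      · exact Primrec.option_some.comp (Primrec.snd.comp (Primrec.snd.comp Primrec.fst))
    · have h2 : RE fun ba : (β × β) × α => step ba.2 ba.1.1 ba.1.2 :=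
        hs.comp (f := fun ba : (β × β) × α => (ba.2, ba.1.1, ba.1.2))
          (Primrec.snd.pair ((Primrec.fst.comp Primrec.fst).pair (Primrec.snd.comp Primrec.fst)))
      exact (RE.all_mem (p := fun (b : β × β) (a : α) => step a b.1 b.2) h2).comp
        (f := fun y : (α × β × β) × List (β × β) => (y.2, y.1.1))
        (Primrec.snd.pair (Primrec.fst.comp Primrec.fst))
  exact (RE.ex (p := fun (x : α × β × β) (L : List (β × β)) =>
    (L.foldl follow (some x.2.1) = some x.2.2) ∧ ∀ p ∈ L, step x.1 p.1 p.2) h1).of_eq
      fun x => reflTransGen_iff_exists_list.symm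

end Pool.Agent.Work.MP_f76ce6_lc
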