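import Pool.Agent.Work.MP_f76ce6_lc.Defs
import Pool.Agent.Work.MP_f76ce6_lc.Core

/-!
# The signature with two unary symbols and the variety `s (t x) = t x`, `t (t x) = t x`
-/

namespace Pool.Agent.Work.MP_f76ce6_lc

section General

variable {S : Signature} {X : Type}

theorem Cong.sound {V : Laws S} {E : Set (Term S X × Term S X)} {A : Type} {I : Ops S A}
    (hV : V.Holds I) {v : X → A} (hE : ∀ p ∈ E, p.1.eval I v = p.2.eval I v)
    {s t : Term S X} (h : Cong V E s t) : s.eval I v = t.eval I v := by
  induction h with
  | refl => rfl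
  | symm _ ih => exact ih.symm
  | trans _ _ ih1 ih2 => exact ih1.trans ih2
  | app f hf _ ih =>
    simp only [Term.eval]
    congr 1
    funext i
    exact ih i
  | @law l hl σ =>
    have key : ∀ t : Term S ℕ, (t.subst σ).eval I v = t.eval I fun n => (σ n).eval I v := by
      intro t
      induction t with
      | var x => rfl
      | app f hf args ih =>
        simp only [Term.subst, Term.eval]
        congr 1
        funext i
        exact ih i
    rw [key, key]
    exact hV l hl _
  | rel hp => exact hE _ hp

theorem Presented.mk_eq {V : Laws S} {E : Set (Term S X × Term S X)} {s t : Term S X} :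
    Presented.mk V E s = Presented.mk V E t ↔ Cong V E s t :=
  ⟨fun h => Quotient.exact h, fun h => Quotient.sound h⟩

theorem Presented.mk_rep {V : Laws S} {E : Set (Term S X × Term S X)} (a : Presented V E) :
    Presented.mk V E a.rep = a := Quotient.out_eq _

theorem Presented.ops_mk {V : Laws S} {E : Set (Term S X × Term S X)} (f : ℕ) (hf : f ∈ S.symb)
    (a : Fin (S.arity f) → Term S X) :
    Presented.ops V E f hf (fun i => Presented.mk V E (a i)) =
      Presented.mk V E (.app f hf a) := by
  unfold Presented.ops
  rw [Presented.mk_eq]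
  refine Cong.app f hf fun i => ?_
  exact Presented.mk_eq.1 (Presented.mk_rep _)

theorem Presented.eval_mk {V : Laws S} {E : Set (Term S X × Term S X)}
    {Y : Type} (σ : Y → Term S X) (t : Term S Y) :
    t.eval (Presented.ops V E) (fun y => Presented.mk V E (σ y)) =
      Presented.mk V E (t.subst σ) := by
  induction t with
  | var x => rfl
  | app f hf args ih =>
    simp only [Term.eval, Term.subst]
    rw [← Presented.ops_mk]
    congr 1
    funext i
    exact ih i

theorem Presented.holds (V : Laws S) (E : Set (Term S X × Term S X)) :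
    V.Holds (Presented.ops V E) := by
  intro l hl v
  have hv : v = fun y => Presented.mk V E (v y).rep := by
    funext y
    exact (Presented.mk_rep _).symm
  rw [hv, Presented.eval_mk, Presented.eval_mk, Presented.mk_eq]
  exact Cong.law hl _

end General

/-- The signature with two unary function symbols, `0` and `1`. -/
def S2 : Signature where
  symb := {f | f < 2}
  arity := fun _ => 1
  symb_decidable := (Primrec.nat_lt.comp Primrec.id (Primrec.const 2)).computablePred
  arity_computable := Computable.const 1

/-- Index of the symbol: `s` is `0` (coded by `false`) and `t` is `1` (coded by `true`). -/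
def ix (b : Bool) : ℕ := cond b 1 0

theorem ix_mem (b : Bool) : ix b ∈ S2.symb := by
  cases b
  · exact (by decide : (0 : ℕ) < 2)
  · exact (by decide : (1 : ℕ) < 2)

/-- The term `s u` or `t u`. -/
def un {X : Type} (b : Bool) (u : Term S2 X) : Term S2 X := .app (ix b) (ix_mem b) fun _ => u

/-- The two laws `s (t x) = t x` and `t (t x) = t x`. -/
def V2 : Laws S2 :=
  {(un false (un true (.var 0)), un true (.var 0)), (un true (un true (.var 0)), un true (.var 0))}

/-- The two operations of an algebra. -/
def opOf {A : Type} (I : Ops S2 A) (b : Bool) (a : A) : A := I (ix b) (ix_mem b) fun _ => a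

theorem eq_ix {f : ℕ} (hf : f ∈ S2.symb) : ∃ b, f = ix b := by
  have hf' : f < 2 := hf
  have : f = 0 ∨ f = 1 := by omega
  rcases this with rfl | rfl
  · exact ⟨false, rfl⟩
  · exact ⟨true, rfl⟩

theorem args_eq {A : Type} {f : ℕ} (args : Fin (S2.arity f) → A) :
    args = fun _ => args (0 : Fin 1) := by
  funext i
  congr 1
  exact Subsingleton.elim (α := Fin 1) i 0

theorem app_eq_un {X : Type} {f : ℕ} (hf : f ∈ S2.symb) (args : Fin (S2.arity f) → Term S2 X) :
    ∃ b u, f = ix b ∧ args = (fun _ => u) ∧ Term.app f hf args = un b u := by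
  obtain ⟨b, rfl⟩ := eq_ix hf
  refine ⟨b, args (0 : Fin 1), rfl, args_eq args, ?_⟩
  rw [args_eq args]
  rfl

/-- Induction principle for unary terms. -/
theorem Term.un_induction {X : Type} {P : Term S2 X → Prop} (hv : ∀ x, P (.var x))
    (hu : ∀ b u, P u → P (un b u)) (t : Term S2 X) : P t := by
  induction t with
  | var x => exact hv x
  | app f hf args ih =>
    obtain ⟨b, u, rfl, rfl, h⟩ := app_eq_un hf args
    rw [h]
    exact hu b u (ih (0 : Fin 1))

/-- Apply a word of operations to a term. -/
def ctx {X : Type} (p : List Bool) (t : Term S2 X) : Term S2 X := p.foldr un t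

@[simp] theorem ctx_nil {X : Type} (t : Term S2 X) : ctx [] t = t := rfl

@[simp] theorem ctx_cons {X : Type} (b : Bool) (p : List Bool) (t : Term S2 X) :
    ctx (b :: p) t = un b (ctx p t) := rfl

theorem ctx_append {X : Type} (p q : List Bool) (t : Term S2 X) :
    ctx (p ++ q) t = ctx p (ctx q t) := by
  simp [ctx]

/-- The word and the variable of a unary term. -/
def Term.toWd {X : Type} : Term S2 X → List Bool × X
  | .var x => ([], x)
  | .app f _ args => (decide (f = 1) :: ((args (0 : Fin 1)).toWd).1, ((args (0 : Fin 1)).toWd).2)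

@[simp] theorem toWd_var {X : Type} (x : X) : (Term.var x : Term S2 X).toWd = ([], x) := rfl

@[simp] theorem toWd_un {X : Type} (b : Bool) (u : Term S2 X) :
    (un b u).toWd = (b :: u.toWd.1, u.toWd.2) := by
  cases b <;> rfl

theorem ctx_toWd {X : Type} (t : Term S2 X) : ctx t.toWd.1 (.var t.toWd.2) = t := by
  induction t using Term.un_induction with
  | hv x => rfl
  | hu b u ih => simp [ih]

theorem toWd_ctx {X : Type} (p : List Bool) (t : Term S2 X) :
    (ctx p t).toWd = (p ++ t.toWd.1, t.toWd.2) := by
  induction p with
  | nil => rfl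
  | cons b p ih => simp [ih]

theorem eval_un {X A : Type} (I : Ops S2 A) (v : X → A) (b : Bool) (u : Term S2 X) :
    (un b u).eval I v = opOf I b (u.eval I v) := rfl

theorem eval_ctx {X A : Type} (I : Ops S2 A) (v : X → A) (p : List Bool) (u : Term S2 X) :
    (ctx p u).eval I v = act (opOf I) p (u.eval I v) := by
  induction p with
  | nil => rfl
  | cons b p ih => rw [ctx_cons, eval_un, ih, act_cons]

theorem holds_iff_lawful {A : Type} (I : Ops S2 A) : V2.Holds I ↔ Lawful (opOf I) := by
  constructor
  · intro h b a
    cases b with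
    | false => exact h _ (Or.inl rfl) fun _ => a
    | true => exact h _ (Or.inr rfl) fun _ => a
  · intro h l hl v
    rcases hl with rfl | rfl
    · exact h false (v 0)
    · exact h true (v 0)

theorem isomorphic_iff {A B : Type} (I : Ops S2 A) (J : Ops S2 B) :
    Isomorphic I J ↔ ∃ φ : A ≃ B, ∀ b a, φ (opOf I b a) = opOf J b (φ a) := by
  constructor
  · rintro ⟨φ, h⟩
    exact ⟨φ, fun b a => h _ _ _⟩
  · rintro ⟨φ, h⟩
    refine ⟨φ, fun f hf args => ?_⟩
    obtain ⟨b, rfl⟩ := eq_ix hf
    rw [args_eq args]
    exact h b _

theorem opOf_mk {X : Type} {E : Set (Term S2 X × Term S2 X)} (b : Bool) (u : Term S2 X) :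
    opOf (Presented.ops V2 E) b (Presented.mk V2 E u) =
      Presented.mk V2 E (un b u) :=
  Presented.ops_mk _ _ fun _ => u

theorem act_mk {X : Type} {E : Set (Term S2 X × Term S2 X)} (p : List Bool) (u : Term S2 X) :
    act (opOf (Presented.ops V2 E)) p (Presented.mk V2 E u) =
      Presented.mk V2 E (ctx p u) := by
  induction p with
  | nil => rfl
  | cons b p ih => rw [act_cons, ih, opOf_mk, ctx_cons]

theorem Cong.un {X : Type} {E : Set (Term S2 X × Term S2 X)} (b : Bool) {s t : Term S2 X}
    (h : Cong V2 E s t) : Cong V2 E (un b s) (un b t) := Cong.app _ _ fun _ => h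

theorem Cong.ctx {X : Type} {E : Set (Term S2 X × Term S2 X)} (p : List Bool) {s t : Term S2 X}
    (h : Cong V2 E s t) : Cong V2 E (ctx p s) (ctx p t) := by
  induction p with
  | nil => exact h
  | cons b p ih => exact Cong.un b ih

theorem Cong.absorb {X : Type} {E : Set (Term S2 X × Term S2 X)} (b : Bool) (u : Term S2 X) :
    Cong V2 E (Pool.Agent.Work.MP_f76ce6_lc.un b (Pool.Agent.Work.MP_f76ce6_lc.un true u))
      (Pool.Agent.Work.MP_f76ce6_lc.un true u) := by
  cases b with
  | false => exact Cong.law (V := V2) (E := E) (Or.inl rfl) fun _ => u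
  | true => exact Cong.law (V := V2) (E := E) (Or.inr rfl) fun _ => u

theorem lawful_presented {X : Type} (E : Set (Term S2 X × Term S2 X)) :
    Lawful (opOf (Presented.ops V2 E)) :=
  (holds_iff_lawful _).1 (Presented.holds V2 E)

end Pool.Agent.Work.MP_f76ce6_lc
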