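import Pool.Agent.Work.MP_f76ce6_lc.Words

/-!
# The upper bound: the isomorphism relation is computably reducible to equality of c.e. sets
-/

namespace Pool.Agent.Work.MP_f76ce6_lc

section Transport

variable {A B : Type} {op : Bool → A → A} {op' : Bool → B → B}

theorem map_act (φ : A → B) (h : ∀ b a, φ (op b a) = op' b (φ a)) (w : List Bool) (a : A) :
    φ (act op w a) = act op' w (φ a) := by
  induction w with
  | nil => rfl
  | cons b w ih => rw [act_cons, h, ih, act_cons]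

theorem Sat.map (φ : A ≃ B) (h : ∀ b a, φ (op b a) = op' b (φ a)) {r : ℕ}
    {F : List (Wd × Wd)} (hs : Sat op r F) : Sat op' r F := by
  obtain ⟨τ, h1, h2⟩ := hs
  refine ⟨fun j => φ (τ j), fun b => ?_, fun p hp => ?_⟩
  · obtain ⟨j, w, hw⟩ := h1 (φ.symm b)
    refine ⟨j, w, ?_⟩
    beta_reduce
    rw [← map_act φ h, ← hw, Equiv.apply_symm_apply]
  · beta_reduce
    rw [← map_act φ h, ← map_act φ h, h2 p hp]

end Transport

section

variable {n : ℕ} [NeZero n] (ν : Numbering S2 n)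

/-- The operations of the `e`-th algebra. -/
noncomputable def OP (e : ℕ) : Bool → Presented V2 (ν.eqns (W e)) → Presented V2 (ν.eqns (W e)) :=
  opOf (Presented.ops V2 (ν.eqns (W e)))

/-- The element named by a word. -/
def elt (e : ℕ) (u : Wd) : Presented V2 (ν.eqns (W e)) :=
  Presented.mk V2 (ν.eqns (W e)) (ctx u.1 (.var (Fin.ofNat n u.2)))

omit [NeZero n] in
theorem OP_lawful (e : ℕ) : Lawful (OP ν e) := lawful_presented _

theorem wd_ctx_var {u : Wd} (hu : u.2 < n) :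
    wd (ctx u.1 (.var (Fin.ofNat n u.2)) : Term S2 (Fin n)) = u := by
  rw [wd_ctx]
  simp only [wd, toWd_var, List.append_nil, Fin.ofNat]
  rw [Nat.mod_eq_of_lt hu]

theorem elt_eq_iff {e : ℕ} {u v : Wd} (hu : u.2 < n) (hv : v.2 < n) :
    elt ν e u = elt ν e v ↔ WEq (cod ν) e u v := by
  unfold elt
  rw [Presented.mk_eq, cong_iff, wd_ctx_var hu, wd_ctx_var hv]

theorem act_elt (e : ℕ) (w : List Bool) (u : Wd) :
    act (OP ν e) w (elt ν e u) = elt ν e (w ++ u.1, u.2) := by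
  unfold elt OP
  rw [act_mk, ctx_append]

theorem exists_elt {e : ℕ} (q : Presented V2 (ν.eqns (W e))) : ∃ u : Wd, u.2 < n ∧ q = elt ν e u := by
  refine ⟨wd q.rep, q.rep.toWd.2.isLt, ?_⟩
  unfold elt
  conv_lhs => rw [← Presented.mk_rep q]
  congr 1
  apply wd_injective
  rw [wd_ctx_var]
  exact q.rep.toWd.2.isLt

/-- Substitute a tuple into a word. -/
def pick (τ : List Wd) (u : Wd) : Wd :=
  (u.1 ++ (τ.getD (u.2 % τ.length) ([], 0)).1, (τ.getD (u.2 % τ.length) ([], 0)).2)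

/-- `τ` is a generating tuple solving the system `rF.2`. -/
def Sol (e : ℕ) (rF : ℕ × List (Wd × Wd)) (τ : List Wd) : Prop :=
  ((τ.length = rF.1 + 1) ∧ ∀ x ∈ τ, x.2 < n) ∧
    (∀ k < n, ∃ u, WEq (cod ν) e ([], k) (pick τ u)) ∧
    ∀ p ∈ rF.2, WEq (cod ν) e (pick τ p.1) (pick τ p.2)

/-- The invariant. -/
def SSet (e c : ℕ) : Prop := ∃ rF : ℕ × List (Wd × Wd), c = Encodable.encode rF ∧ ∃ τ, Sol ν e rF τ

end

theorem pick_primrec : Primrec fun x : List Wd × Wd => pick x.1 x.2 := by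
  unfold pick
  have h1 : Primrec fun x : List Wd × Wd => x.1.getD (x.2.2 % x.1.length) (([], 0) : Wd) :=
    (Primrec.list_getD (([], 0) : Wd)).comp Primrec.fst
      (Primrec.nat_mod.comp (Primrec.snd.comp Primrec.snd) (Primrec.list_length.comp Primrec.fst))
  exact (Primrec.list_append.comp (Primrec.fst.comp Primrec.snd) (Primrec.fst.comp h1)).pair
    (Primrec.snd.comp h1)

section

variable {n : ℕ} [NeZero n] (ν : Numbering S2 n)

omit [NeZero n] in
theorem Sol_RE : RE fun x : (ℕ × ℕ × List (Wd × Wd)) × List Wd => Sol ν x.1.1 x.1.2 x.2 := by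
  have hW := WEq_RE (c := cod ν) ν.computable
  unfold Sol
  refine RE.and (RE.of_primrec (PrimrecPred.and ?_ ?_)) (RE.and ?_ ?_)
  · exact Primrec.eq.comp (Primrec.list_length.comp Primrec.snd)
      (Primrec.succ.comp (Primrec.fst.comp (Primrec.snd.comp Primrec.fst)))
  · have h : PrimrecPred fun x : Wd => x.2 < n := Primrec.nat_lt.comp Primrec.snd (Primrec.const n)
    exact h.forall_mem_list.comp Primrec.snd
  · have h1 : RE fun y : (ℕ × (ℕ × List Wd)) × Wd =>
        WEq (cod ν) y.1.2.1 ([], y.1.1) (pick y.1.2.2 y.2) :=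
      hW.comp (f := fun y : (ℕ × (ℕ × List Wd)) × Wd =>
        (y.1.2.1, (([], y.1.1) : Wd), pick y.1.2.2 y.2))
        ((Primrec.fst.comp (Primrec.snd.comp Primrec.fst)).pair
          (((Primrec.const []).pair (Primrec.fst.comp Primrec.fst)).pair
            (pick_primrec.comp
              ((Primrec.snd.comp (Primrec.snd.comp Primrec.fst)).pair Primrec.snd))))
    have h2 : RE fun y : ℕ × (ℕ × List Wd) =>
        ∃ u : Wd, WEq (cod ν) y.2.1 ([], y.1) (pick y.2.2 u) := RE.ex h1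
    have h3 := RE.all_lt (p := fun (k : ℕ) (y : ℕ × List Wd) =>
        ∃ u : Wd, WEq (cod ν) y.1 ([], k) (pick y.2 u)) h2
    exact h3.comp (f := fun x : (ℕ × ℕ × List (Wd × Wd)) × List Wd => (n, (x.1.1, x.2)))
      ((Primrec.const n).pair ((Primrec.fst.comp Primrec.fst).pair Primrec.snd))
  · have h1 : RE fun y : (Wd × Wd) × (ℕ × List Wd) =>
        WEq (cod ν) y.2.1 (pick y.2.2 y.1.1) (pick y.2.2 y.1.2) :=
      hW.comp (f := fun y : (Wd × Wd) × (ℕ × List Wd) =>
        (y.2.1, pick y.2.2 y.1.1, pick y.2.2 y.1.2))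
        ((Primrec.fst.comp Primrec.snd).pair
          ((pick_primrec.comp ((Primrec.snd.comp Primrec.snd).pair
            (Primrec.fst.comp Primrec.fst))).pair
          (pick_primrec.comp ((Primrec.snd.comp Primrec.snd).pair
            (Primrec.snd.comp Primrec.fst)))))
    have h3 := RE.all_mem (p := fun (p : Wd × Wd) (y : ℕ × List Wd) =>
        WEq (cod ν) y.1 (pick y.2 p.1) (pick y.2 p.2)) h1
    exact h3.comp (f := fun x : (ℕ × ℕ × List (Wd × Wd)) × List Wd => (x.1.2.2, (x.1.1, x.2)))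
      ((Primrec.snd.comp (Primrec.snd.comp Primrec.fst)).pair
        ((Primrec.fst.comp Primrec.fst).pair Primrec.snd))

omit [NeZero n] in
theorem SSet_RE : RE fun x : ℕ × ℕ => SSet ν x.1 x.2 := by
  unfold SSet
  refine RE.ex ?_
  refine RE.and ?_ ?_
  · refine RE.of_primrec ?_
    exact Primrec.eq.comp (Primrec.snd.comp Primrec.fst) (Primrec.encode.comp Primrec.snd)
  · refine RE.ex ?_
    exact (Sol_RE ν).comp
      (f := fun y : ((ℕ × ℕ) × (ℕ × List (Wd × Wd))) × List Wd => ((y.1.1.1, y.1.2), y.2))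
      (((Primrec.fst.comp (Primrec.fst.comp Primrec.fst)).pair
        (Primrec.snd.comp Primrec.fst)).pair Primrec.snd)

theorem elt_pick {e : ℕ} {r : ℕ} {τ : List Wd} (hlen : τ.length = r + 1) (u : Wd) :
    elt ν e (pick τ u) =
      act (OP ν e) u.1 (elt ν e (τ.getD ((Fin.ofNat (r + 1) u.2 : Fin (r + 1)) : ℕ) ([], 0))) := by
  rw [act_elt]
  simp only [pick, hlen, Fin.ofNat]

omit [NeZero n] in
theorem pick_lt {τ : List Wd} {r : ℕ} (hlen : τ.length = r + 1) (hτ : ∀ x ∈ τ, x.2 < n) (u : Wd) :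
    (pick τ u).2 < n := by
  unfold pick
  have h : u.2 % τ.length < τ.length := Nat.mod_lt _ (by omega)
  rw [List.getD_eq_getElem _ _ h]
  exact hτ (τ[u.2 % τ.length]) (List.getElem_mem h)

theorem sat_iff (e r : ℕ) (F : List (Wd × Wd)) :
    Sat (OP ν e) r F ↔ SSet ν e (Encodable.encode (r, F)) := by
  constructor
  · rintro ⟨τ, hgen, hF⟩
    have hex : ∀ j, ∃ u : Wd, u.2 < n ∧ τ j = elt ν e u := fun j => exists_elt ν (τ j)
    choose t ht1 ht2 using hex
    have hlen : (List.ofFn t).length = r + 1 := List.length_ofFn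
    have hmem : ∀ x ∈ List.ofFn t, x.2 < n := by
      intro x hx
      rw [List.mem_ofFn] at hx
      obtain ⟨j, rfl⟩ := hx
      exact ht1 j
    have hget : ∀ j : Fin (r + 1), (List.ofFn t).getD (j : ℕ) ([], 0) = t j := by
      intro j
      rw [List.getD_eq_getElem _ _ (by rw [hlen]; exact j.isLt)]
      rw [List.getElem_ofFn]
    have hpick : ∀ u : Wd, elt ν e (pick (List.ofFn t) u) =
        act (OP ν e) u.1 (τ (Fin.ofNat (r + 1) u.2)) := by
      intro u
      rw [elt_pick ν hlen, hget, ht2]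
    refine ⟨(r, F), rfl, List.ofFn t, ⟨hlen, hmem⟩, fun k hk => ?_, fun p hp => ?_⟩
    · obtain ⟨j, w, hw⟩ := hgen (elt ν e ([], k))
      refine ⟨(w, (j : ℕ)), ?_⟩
      rw [← elt_eq_iff ν hk (pick_lt hlen hmem _), hpick, hw]
      simp
    · rw [← elt_eq_iff ν (pick_lt hlen hmem _) (pick_lt hlen hmem _), hpick, hpick]
      exact hF p hp
  · rintro ⟨⟨r', F'⟩, hrF, τ, ⟨hlen, hmem⟩, h1, h2⟩
    have := Encodable.encode_injective hrF
    rw [Prod.mk.injEq] at this
    obtain ⟨rfl, rfl⟩ := this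
    simp only at hlen h2
    refine ⟨fun j => elt ν e (τ.getD (j : ℕ) ([], 0)), fun q => ?_, fun p hp => ?_⟩
    · obtain ⟨u, hu, rfl⟩ := exists_elt ν q
      obtain ⟨v, hv⟩ := h1 u.2 hu
      have hu' : ((([], u.2) : Wd)).2 < n := hu
      rw [← elt_eq_iff ν hu' (pick_lt hlen hmem _), elt_pick ν hlen] at hv
      refine ⟨Fin.ofNat (r + 1) v.2, u.1 ++ v.1, ?_⟩
      beta_reduce
      rw [act_append, ← hv, act_elt]
      simp
    · beta_reduce
      rw [← elt_pick ν hlen, ← elt_pick ν hlen, elt_eq_iff ν (pick_lt hlen hmem _)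
        (pick_lt hlen hmem _)]
      exact h2 p hp

theorem OP_fg (e : ℕ) : ∃ r, ∃ τ : Fin (r + 1) → Presented V2 (ν.eqns (W e)), Gen (OP ν e) τ := by
  obtain ⟨r, hr⟩ := Nat.exists_eq_succ_of_ne_zero (NeZero.ne n)
  refine ⟨r, fun j => elt ν e ([], j), fun q => ?_⟩
  obtain ⟨u, hu, rfl⟩ := exists_elt ν q
  refine ⟨⟨u.2, by omega⟩, u.1, ?_⟩
  rw [act_elt]
  simp

theorem isoRel_iff (e e' : ℕ) : isoRel V2 ν e e' ↔ ∀ c, SSet ν e c ↔ SSet ν e' c := by
  unfold isoRel
  rw [isomorphic_iff]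
  constructor
  · rintro ⟨φ, h⟩ c
    constructor
    · rintro ⟨rF, rfl, hτ⟩
      have h1 : Sat (OP ν e) rF.1 rF.2 := (sat_iff ν e _ _).2 ⟨rF, rfl, hτ⟩
      exact (sat_iff ν e' _ _).1 (h1.map φ h)
    · rintro ⟨rF, rfl, hτ⟩
      have h1 : Sat (OP ν e') rF.1 rF.2 := (sat_iff ν e' _ _).2 ⟨rF, rfl, hτ⟩
      refine (sat_iff ν e _ _).1 (h1.map φ.symm fun b a => ?_)
      rw [Equiv.symm_apply_eq]
      have h2 := h b (φ.symm a)
      rw [Equiv.apply_symm_apply] at h2
      exact h2.symm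
  · intro h
    refine exists_equiv_of_sat (OP_lawful ν e) (OP_lawful ν e') (OP_fg ν e) fun r F => ?_
    exact (sat_iff ν e r F).trans ((h _).trans (sat_iff ν e' r F).symm)

/-- Upper bound. -/
theorem isoRel_le_eqCE : CRed (isoRel V2 ν) eqCE := by
  obtain ⟨f, hf, hfW⟩ := RE.smn (SSet_RE ν)
  refine ⟨f, hf, fun e e' => ?_⟩
  rw [isoRel_iff, eqCE, Set.ext_iff]
  simp only [hfW]

end

end Pool.Agent.Work.MP_f76ce6_lc
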