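import Pool.Agent.Work.MP_f76ce6_lc.Trans
import Pool.Agent.Work.MP_f76ce6_lc.Unary

/-!
# Words, codes of unary terms, and uniform enumerability of equality in presented algebras
-/

namespace Pool.Agent.Work.MP_f76ce6_lc

/-- Goedel number of a unary term, in terms of its word. -/
def codeW (u : Wd) : ℕ :=
  u.1.foldr (fun b c => 2 * Nat.pair (ix b) (Encodable.encode [c]) + 1) (2 * u.2)

theorem codeW_nil (k : ℕ) : codeW ([], k) = 2 * k := rfl

theorem codeW_cons (b : Bool) (w : List Bool) (k : ℕ) :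
    codeW (b :: w, k) = 2 * Nat.pair (ix b) (Encodable.encode [codeW (w, k)]) + 1 := rfl

theorem ix_injective : Function.Injective ix := by
  intro b c h
  cases b <;> cases c <;> first | rfl | exact absurd h (by decide)

theorem codeW_injective : Function.Injective codeW := by
  rintro ⟨w, k⟩ ⟨w', k'⟩ h
  induction w generalizing w' with
  | nil =>
    cases w' with
    | nil =>
      rw [codeW_nil, codeW_nil] at h
      have : k = k' := by omega
      rw [this]
    | cons b w' =>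
      rw [codeW_nil, codeW_cons] at h
      omega
  | cons b w ih =>
    cases w' with
    | nil =>
      rw [codeW_nil, codeW_cons] at h
      omega
    | cons b' w' =>
      rw [codeW_cons, codeW_cons] at h
      have h1 : Nat.pair (ix b) (Encodable.encode [codeW (w, k)]) =
          Nat.pair (ix b') (Encodable.encode [codeW (w', k')]) := by omega
      rw [Nat.pair_eq_pair] at h1
      have h2 := ix_injective h1.1
      have h3 := Encodable.encode_injective h1.2
      have h4 := ih w' (List.cons.inj h3).1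
      rw [Prod.mk.injEq] at h4
      rw [h2, h4.1, h4.2]

theorem codeW_primrec : Primrec codeW := by
  unfold codeW
  refine Primrec.list_foldr (h := fun (_ : Wd) (x : Bool × ℕ) =>
    2 * Nat.pair (ix x.1) (Encodable.encode [x.2]) + 1) Primrec.fst
    (Primrec.nat_mul.comp (Primrec.const 2) Primrec.snd) ?_
  refine Primrec.succ.comp ?_
  refine Primrec.nat_mul.comp (Primrec.const 2) ?_
  refine Primrec₂.natPair.comp ?_ ?_
  · exact Primrec.cond (Primrec.fst.comp Primrec.snd) (Primrec.const 1) (Primrec.const 0)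
  · exact Primrec.encode.comp
      (Primrec.list_cons.comp (Primrec.snd.comp Primrec.snd) (Primrec.const []))

/-- The word and the index of the generator of a unary term. -/
def wd {n : ℕ} (t : Term S2 (Fin n)) : Wd := (t.toWd.1, (t.toWd.2 : ℕ))

theorem code_eq {n : ℕ} (t : Term S2 (Fin n)) : t.code = codeW (wd t) := by
  induction t using Term.un_induction with
  | hv x => rfl
  | hu b u ih =>
    have h : (un b u).code =
        2 * Nat.pair (ix b) (Encodable.encode (List.ofFn fun _ : Fin 1 => u.code)) + 1 := rfl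
    rw [h, ih]
    simp [wd, codeW_cons]

theorem wd_injective {n : ℕ} : Function.Injective (wd : Term S2 (Fin n) → Wd) := by
  intro s t h
  unfold wd at h
  rw [Prod.mk.injEq] at h
  rw [← ctx_toWd s, ← ctx_toWd t, h.1, Fin.ext h.2]

theorem wd_ctx {n : ℕ} (p : List Bool) (t : Term S2 (Fin n)) :
    wd (ctx p t) = (p ++ (wd t).1, (wd t).2) := by
  unfold wd
  rw [toWd_ctx]

theorem wd_un {n : ℕ} (b : Bool) (t : Term S2 (Fin n)) :
    wd (un b t) = (b :: (wd t).1, (wd t).2) := by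
  unfold wd
  rw [toWd_un]

/-- The basic equations on words; `c` gives the Goedel numbers of the two sides of the numbered
equations. -/
def base (c : ℕ → ℕ × ℕ) (e : ℕ) (l r : Wd) : Prop :=
  (∃ bw : Bool × List Bool, l = (bw.1 :: true :: bw.2, r.2) ∧ r.1 = true :: bw.2) ∨
    ∃ m, m ∈ W e ∧ c m = (codeW l, codeW r)

/-- One step of equational rewriting. -/
def WStep (c : ℕ → ℕ × ℕ) (e : ℕ) (u v : Wd) : Prop :=
  ∃ x : List Bool × Wd × Wd, (u = (x.1 ++ x.2.1.1, x.2.1.2) ∧ v = (x.1 ++ x.2.2.1, x.2.2.2)) ∧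
    (base c e x.2.1 x.2.2 ∨ base c e x.2.2 x.2.1)

/-- Equality of words in the presented algebra. -/
def WEq (c : ℕ → ℕ × ℕ) (e : ℕ) : Wd → Wd → Prop := Relation.ReflTransGen (WStep c e)

theorem base_RE {c : ℕ → ℕ × ℕ} (hc : Computable c) :
    RE fun x : ℕ × Wd × Wd => base c x.1 x.2.1 x.2.2 := by
  unfold base
  refine RE.or ?_ ?_
  · refine RE.ex ?_
    refine RE.of_primrec ?_
    refine PrimrecPred.and ?_ ?_
    · refine Primrec.eq.comp (Primrec.fst.comp (Primrec.snd.comp Primrec.fst)) ?_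
      refine Primrec.pair ?_ (Primrec.snd.comp (Primrec.snd.comp (Primrec.snd.comp Primrec.fst)))
      exact Primrec.list_cons.comp (Primrec.fst.comp Primrec.snd)
        (Primrec.list_cons.comp (Primrec.const true) (Primrec.snd.comp Primrec.snd))
    · refine Primrec.eq.comp (Primrec.fst.comp (Primrec.snd.comp (Primrec.snd.comp Primrec.fst))) ?_
      exact Primrec.list_cons.comp (Primrec.const true) (Primrec.snd.comp Primrec.snd)
  · refine RE.ex ?_
    refine RE.and ?_ ?_
    · exact RE.mem_W.comp (f := fun y : (ℕ × Wd × Wd) × ℕ => (y.1.1, y.2))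
        ((Primrec.fst.comp Primrec.fst).pair Primrec.snd)
    · have h : RE fun y : (ℕ × ℕ) × (ℕ × ℕ) => y.1 = y.2 := RE.of_primrec Primrec.eq
      refine h.comp_computable
        (f := fun y : (ℕ × Wd × Wd) × ℕ => (c y.2, (codeW y.1.2.1, codeW y.1.2.2))) ?_
      refine Computable.pair (hc.comp Computable.snd) ?_
      exact (((codeW_primrec.comp (Primrec.fst.comp (Primrec.snd.comp Primrec.fst))).pair
        (codeW_primrec.comp (Primrec.snd.comp (Primrec.snd.comp Primrec.fst))))).to_comp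

theorem WStep_RE {c : ℕ → ℕ × ℕ} (hc : Computable c) :
    RE fun x : ℕ × Wd × Wd => WStep c x.1 x.2.1 x.2.2 := by
  unfold WStep
  refine RE.ex ?_
  refine RE.and ?_ (RE.or ?_ ?_)
  · refine RE.of_primrec ?_
    refine PrimrecPred.and ?_ ?_
    · refine Primrec.eq.comp (Primrec.fst.comp (Primrec.snd.comp Primrec.fst)) ?_
      exact (Primrec.list_append.comp (Primrec.fst.comp Primrec.snd)
        (Primrec.fst.comp (Primrec.fst.comp (Primrec.snd.comp Primrec.snd)))).pair
        (Primrec.snd.comp (Primrec.fst.comp (Primrec.snd.comp Primrec.snd)))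
    · refine Primrec.eq.comp (Primrec.snd.comp (Primrec.snd.comp Primrec.fst)) ?_
      exact (Primrec.list_append.comp (Primrec.fst.comp Primrec.snd)
        (Primrec.fst.comp (Primrec.snd.comp (Primrec.snd.comp Primrec.snd)))).pair
        (Primrec.snd.comp (Primrec.snd.comp (Primrec.snd.comp Primrec.snd)))
  · exact (base_RE hc).comp
      (f := fun y : (ℕ × Wd × Wd) × (List Bool × Wd × Wd) => (y.1.1, y.2.2.1, y.2.2.2))
      ((Primrec.fst.comp Primrec.fst).pair ((Primrec.fst.comp (Primrec.snd.comp Primrec.snd)).pair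
        (Primrec.snd.comp (Primrec.snd.comp Primrec.snd))))
  · exact (base_RE hc).comp
      (f := fun y : (ℕ × Wd × Wd) × (List Bool × Wd × Wd) => (y.1.1, y.2.2.2, y.2.2.1))
      ((Primrec.fst.comp Primrec.fst).pair ((Primrec.snd.comp (Primrec.snd.comp Primrec.snd)).pair
        (Primrec.fst.comp (Primrec.snd.comp Primrec.snd))))

theorem WEq_RE {c : ℕ → ℕ × ℕ} (hc : Computable c) :
    RE fun x : ℕ × Wd × Wd => WEq c x.1 x.2.1 x.2.2 :=
  RE.reflTransGen (WStep_RE hc)

theorem WStep.symm {c : ℕ → ℕ × ℕ} {e : ℕ} {u v : Wd} (h : WStep c e u v) : WStep c e v u := by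
  obtain ⟨⟨p, l, r⟩, ⟨h1, h2⟩, h3⟩ := h
  exact ⟨(p, r, l), ⟨h2, h1⟩, h3.symm⟩

theorem WEq.symm {c : ℕ → ℕ × ℕ} {e : ℕ} {u v : Wd} (h : WEq c e u v) : WEq c e v u := by
  induction h with
  | refl => exact Relation.ReflTransGen.refl
  | tail _ hbc ih => exact Relation.ReflTransGen.head hbc.symm ih

theorem WStep.cons {c : ℕ → ℕ × ℕ} {e : ℕ} {u v : Wd} (b : Bool) (h : WStep c e u v) :
    WStep c e (b :: u.1, u.2) (b :: v.1, v.2) := by
  obtain ⟨⟨p, l, r⟩, ⟨h1, h2⟩, h3⟩ := h
  refine ⟨(b :: p, l, r), ⟨?_, ?_⟩, h3⟩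
  · rw [h1]; rfl
  · rw [h2]; rfl

theorem WEq.cons {c : ℕ → ℕ × ℕ} {e : ℕ} {u v : Wd} (b : Bool) (h : WEq c e u v) :
    WEq c e (b :: u.1, u.2) (b :: v.1, v.2) := by
  induction h with
  | refl => exact Relation.ReflTransGen.refl
  | tail _ hbc ih => exact Relation.ReflTransGen.tail ih (hbc.cons b)

/-- The Goedel numbers attached to a numbering. -/
def cod {n : ℕ} (ν : Numbering S2 n) (m : ℕ) : ℕ × ℕ := ((ν.eqn m).1.code, (ν.eqn m).2.code)

theorem base_of_eqn {n : ℕ} (ν : Numbering S2 n) {e m : ℕ} (hm : m ∈ W e) :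
    base (cod ν) e (wd (ν.eqn m).1) (wd (ν.eqn m).2) := by
  refine Or.inr ⟨m, hm, ?_⟩
  simp only [cod, code_eq]

theorem WEq_of_cong {n : ℕ} (ν : Numbering S2 n) {e : ℕ} {s t : Term S2 (Fin n)}
    (h : Cong V2 (ν.eqns (W e)) s t) : WEq (cod ν) e (wd s) (wd t) := by
  induction h with
  | refl => exact Relation.ReflTransGen.refl
  | symm _ ih => exact ih.symm
  | trans _ _ ih1 ih2 => exact ih1.trans ih2
  | app f hf _ ih =>
    rename_i a b _
    obtain ⟨c, rfl⟩ := eq_ix hf
    have h := (ih (0 : Fin 1)).cons c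
    rw [args_eq a, args_eq b]
    change WEq (cod ν) e (wd (un c _)) (wd (un c _))
    rw [wd_un, wd_un]
    exact h
  | @law l hl σ =>
    have key : ∀ c : Bool, WEq (cod ν) e (wd (un c (un true (σ 0)))) (wd (un true (σ 0))) := by
      intro c
      refine Relation.ReflTransGen.single ?_
      refine ⟨([], wd (un c (un true (σ 0))), wd (un true (σ 0))), ⟨rfl, rfl⟩, Or.inl (Or.inl ?_)⟩
      refine ⟨(c, (wd (σ 0)).1), ?_, ?_⟩
      · simp [wd_un]
      · simp [wd_un]
    rcases hl with rfl | rfl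
    · exact key false
    · exact key true
  | rel hp =>
    obtain ⟨m, hm, rfl⟩ := hp
    refine Relation.ReflTransGen.single ?_
    exact ⟨([], _, _), ⟨rfl, rfl⟩, Or.inl (base_of_eqn ν hm)⟩

theorem cong_of_WStep {n : ℕ} (ν : Numbering S2 n) {e : ℕ} {u v : Wd}
    (h : WStep (cod ν) e u v) (s : Term S2 (Fin n)) (hs : wd s = u) :
    ∃ t, wd t = v ∧ Cong V2 (ν.eqns (W e)) s t := by
  subst hs
  obtain ⟨⟨p, l, r⟩, ⟨h1, h2⟩, h3⟩ := h
  simp only at h1 h2 h3
  -- it suffices to find terms for `l` and `r`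
  have key : (∃ a b : Term S2 (Fin n), wd a = l ∧ wd b = r ∧
      Cong V2 (ν.eqns (W e)) a b) → ∃ t, wd t = v ∧ Cong V2 (ν.eqns (W e)) s t := by
    rintro ⟨a, b, rfl, rfl, hab⟩
    refine ⟨ctx p b, ?_, ?_⟩
    · rw [wd_ctx, h2]
    · have : s = ctx p a := wd_injective (by rw [h1, wd_ctx])
      rw [this]
      exact hab.ctx p
  apply key
  have hs2 : ((s.toWd.2 : Fin n) : ℕ) = l.2 := congrArg Prod.snd h1
  have hgen : ∀ x y : Wd, x.2 = y.2 → (x.2 = ((s.toWd.2 : Fin n) : ℕ)) → base (cod ν) e x y →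
      ∃ a b : Term S2 (Fin n), wd a = x ∧ wd b = y ∧ Cong V2 (ν.eqns (W e)) a b := by
    rintro ⟨xw, xk⟩ ⟨yw, yk⟩ hxy hx hb
    simp only at hxy hx
    subst hxy
    rcases hb with ⟨⟨b, w⟩, h4, h5⟩ | ⟨m, hm, h4⟩
    · simp only [Prod.mk.injEq, and_true] at h4 h5
      subst h4
      subst h5
      refine ⟨ctx [b, true] (ctx w (.var s.toWd.2)), ctx [true] (ctx w (.var s.toWd.2)),
        ?_, ?_, ?_⟩
      · rw [wd_ctx, wd_ctx]; simp [wd, hx]
      · rw [wd_ctx, wd_ctx]; simp [wd, hx]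
      · exact Cong.absorb b _
    · rw [cod, code_eq, code_eq, Prod.mk.injEq] at h4
      exact ⟨_, _, codeW_injective h4.1, codeW_injective h4.2, Cong.rel ⟨m, hm, rfl⟩⟩
  rcases h3 with h3 | h3
  · rcases h3 with ⟨⟨b, w⟩, h4, h5⟩ | ⟨m, hm, h4⟩
    · have h6 : l.2 = r.2 := by rw [h4]
      exact hgen l r h6 hs2.symm (Or.inl ⟨(b, w), h4, h5⟩)
    · rw [cod, code_eq, code_eq, Prod.mk.injEq] at h4
      exact ⟨_, _, codeW_injective h4.1, codeW_injective h4.2, Cong.rel ⟨m, hm, rfl⟩⟩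
  · rcases h3 with ⟨⟨b, w⟩, h4, h5⟩ | ⟨m, hm, h4⟩
    · have h6 : r.2 = l.2 := by rw [h4]
      obtain ⟨a', b', h7, h8, h9⟩ := hgen r l h6 (h6.trans hs2.symm) (Or.inl ⟨(b, w), h4, h5⟩)
      exact ⟨b', a', h8, h7, h9.symm⟩
    · rw [cod, code_eq, code_eq, Prod.mk.injEq] at h4
      have h7 : ν.eqn m ∈ ν.eqns (W e) := ⟨m, hm, rfl⟩
      exact ⟨_, _, codeW_injective h4.2, codeW_injective h4.1, (Cong.rel h7).symm⟩

theorem cong_of_WEq_aux {n : ℕ} (ν : Numbering S2 n) {e : ℕ} {u v : Wd}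
    (h : WEq (cod ν) e u v) : ∀ s : Term S2 (Fin n), wd s = u →
      ∃ t, wd t = v ∧ Cong V2 (ν.eqns (W e)) s t := by
  induction h using Relation.ReflTransGen.head_induction_on with
  | refl => exact fun s hs => ⟨s, hs, Cong.refl s⟩
  | @head a b hab _ ih =>
    intro s hs
    obtain ⟨t, ht, hst⟩ := cong_of_WStep ν hab s hs
    obtain ⟨t', ht', htt'⟩ := ih t ht
    exact ⟨t', ht', hst.trans htt'⟩

theorem cong_iff {n : ℕ} (ν : Numbering S2 n) {e : ℕ} {s t : Term S2 (Fin n)} :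
    Cong V2 (ν.eqns (W e)) s t ↔ WEq (cod ν) e (wd s) (wd t) := by
  refine ⟨WEq_of_cong ν, fun h => ?_⟩
  obtain ⟨t', ht', hst⟩ := cong_of_WEq_aux ν h s rfl
  rw [wd_injective ht'] at hst
  exact hst

end Pool.Agent.Work.MP_f76ce6_lc
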